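import Mathlib

set_option autoImplicit false

namespace Pool.Agent.H72.NP

open Turing Computability

/-- Polynomial-time computability of a function between encoded types, by Mathlib's multi-stack
Turing machines. -/
def PolyTimeFun {α β A B : Type} (ea : α → List A) (eb : β → List B) (f : α → β) : Prop :=
  Nonempty (TM2ComputableInPolyTime ea eb f)

/-- The encoding of a pair (instance, witness): the encoding of the instance followed by the witness,
the two parts written with disjoint copies of their alphabets. -/
def pairEnc {α A : Type} (e : α → List A) (p : α × List Bool) : List (A ⊕ Bool) :=
  (e p.1).map Sum.inl ++ p.2.map Sum.inr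

/-- The class NP: the decision problem `P` on instances encoded by `e` has witnesses of polynomially
bounded length that can be checked in polynomial time. -/
def InNP {α A : Type} (e : α → List A) (P : α → Prop) : Prop :=
  ∃ (V : α × List Bool → Bool) (p : Polynomial ℕ),
    PolyTimeFun (pairEnc e) encodeBool V ∧
    ∀ a, P a ↔ ∃ w : List Bool, w.length ≤ p.eval (e a).length ∧ V (a, w) = true

/-- NP-hardness (with respect to polynomial-time many-one reductions) of the decision problem `P` on
instances encoded by `e`: every language over `{0,1}` in NP reduces to it. -/
def NPHard {α A : Type} (e : α → List A) (P : α → Prop) : Prop :=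
  ∀ L : List Bool → Prop, InNP (id : List Bool → List Bool) L →
    ∃ f : List Bool → α, PolyTimeFun (id : List Bool → List Bool) e f ∧ ∀ x, L x ↔ P (f x)

/-- NP-completeness -/
def NPComplete {α A : Type} (e : α → List A) (P : α → Prop) : Prop :=
  InNP e P ∧ NPHard e P

end Pool.Agent.H72.NP
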