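import Mathlib

set_option autoImplicit false

namespace Pool.Agent.H72.NP

/-- a literal: sign and variable -/
abbrev Lit := Bool × ℕ

/-- a formula in conjunctive normal form: a list of clauses, each a list of literals -/
abbrev Cnf := List (List Lit)

/-- the literal is true under the assignment -/
def Lit.Holds (v : ℕ → Bool) (l : Lit) : Prop := v l.2 = l.1

/-- the clause is true under the assignment -/
def ClauseHolds (v : ℕ → Bool) (c : List Lit) : Prop := ∃ l ∈ c, v l.2 = l.1

/-- the assignment satisfies the formula -/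
def Cnf.Models (v : ℕ → Bool) (φ : Cnf) : Prop := ∀ c ∈ φ, ClauseHolds v c

/-- satisfiability -/
def Cnf.Sat (φ : Cnf) : Prop := ∃ v : ℕ → Bool, ∀ c ∈ φ, ∃ l ∈ c, v l.2 = l.1

end Pool.Agent.H72.NP
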