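import Mathlib
import Pool.Agent.H72.NP.Cnf

set_option autoImplicit false

namespace Pool.Agent.H72.NP

/-- what is done to the stack that is read -/
inductive Op (na : ℕ)
  | keep
  | push (a : Fin na)
  | pop

/-- A stack machine in normal form: in state `q` it looks at the top of stack `rd q`, applies `op q` to
that stack and goes to state `nx q top`. -/
structure SM where
  nq : ℕ
  nk : ℕ
  na : ℕ
  rd : Fin nq → Fin nk
  op : Fin nq → Op na
  nx : Fin nq → Option (Fin na) → Fin nq
  start : Fin nq
  acc : Fin nq
  inp : Fin nk

namespace SM

variable (M : SM)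

/-- configurations -/
structure Cf where
  q : Fin M.nq
  stk : Fin M.nk → List (Fin M.na)

/-- effect of an operation on a stack -/
def _root_.Pool.Agent.H72.NP.Op.act {na : ℕ} : Op na → List (Fin na) → List (Fin na)
  | .keep, s => s
  | .push a, s => a :: s
  | .pop, s => s.tail

/-- one step -/
def step (c : M.Cf) : M.Cf :=
  ⟨M.nx c.q (c.stk (M.rd c.q)).head?,
   Function.update c.stk (M.rd c.q) ((M.op c.q).act (c.stk (M.rd c.q)))⟩

/-- initial configuration -/
def init (l : List (Fin M.na)) : M.Cf :=
  ⟨M.start, Function.update (fun _ => []) M.inp l⟩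

/-- configuration after `t` steps -/
def run (l : List (Fin M.na)) (t : ℕ) : M.Cf := M.step^[t] (M.init l)

theorem run_zero (l : List (Fin M.na)) : M.run l 0 = M.init l := rfl

theorem run_succ (l : List (Fin M.na)) (t : ℕ) : M.run l (t+1) = M.step (M.run l t) := by
  simp only [run, Function.iterate_succ_apply']

end SM

/-- code of a cell content: `0` bottom marker, `1` blank, `a + 2` symbol `a` -/
def cellCode {na : ℕ} (m : ℕ) (l : List (Fin na)) (i : ℕ) : ℕ :=
  if i < m then 0 else match l.reverse[i - m]? with
    | some a => a.val + 2
    | none => 1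

/-- the variable saying that the state at time `t` is `q` -/
def vst (t q : ℕ) : ℕ := Nat.pair 0 (Nat.pair t q)

/-- the variable saying that at time `t` the cell `i` of stack `k` has content `b` -/
def vcell (t k i b : ℕ) : ℕ := Nat.pair 1 (Nat.pair t (Nat.pair k (Nat.pair i b)))

theorem vst_inj {t q t' q' : ℕ} (h : vst t q = vst t' q') : t = t' ∧ q = q' := by
  simp only [vst, Nat.pair_eq_pair] at h
  exact h.2

theorem vcell_inj {t k i b t' k' i' b' : ℕ} (h : vcell t k i b = vcell t' k' i' b') :
    t = t' ∧ k = k' ∧ i = i' ∧ b = b' := by
  simp only [vcell, Nat.pair_eq_pair] at h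
  exact ⟨h.2.1, h.2.2.1, h.2.2.2.1, h.2.2.2.2⟩

theorem vst_ne_vcell {t q t' k i b : ℕ} : vst t q ≠ vcell t' k i b := by
  intro h
  simp only [vst, vcell, Nat.pair_eq_pair] at h
  omega

section cells

variable {na : ℕ}

theorem cellCode_lt {m : ℕ} {l : List (Fin na)} {i : ℕ} (h : i < m) : cellCode m l i = 0 := by
  simp [cellCode, h]

theorem cellCode_blank {m : ℕ} {l : List (Fin na)} {i : ℕ} (h : m + l.length ≤ i) :
    cellCode m l i = 1 := by
  have h1 : ¬ i < m := by omega
  have h2 : l.reverse[i - m]? = none := by
    rw [List.getElem?_eq_none_iff, List.length_reverse]; omega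
  simp [cellCode, h1, h2]

theorem cellCode_ne_blank {m : ℕ} {l : List (Fin na)} {i : ℕ} (h : i < m + l.length) :
    cellCode m l i ≠ 1 := by
  unfold cellCode
  split_ifs with h1
  · simp
  · have h2 : i - m < l.reverse.length := by rw [List.length_reverse]; omega
    rw [List.getElem?_eq_getElem h2]
    simp

theorem cellCode_eq_blank_iff {m : ℕ} {l : List (Fin na)} {i : ℕ} :
    cellCode m l i = 1 ↔ m + l.length ≤ i := by
  constructor
  · intro h
    by_contra hc
    exact cellCode_ne_blank (by omega) h
  · exact cellCode_blank

theorem cellCode_lt_na {m : ℕ} {l : List (Fin na)} {i : ℕ} : cellCode m l i < na + 2 := by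
  unfold cellCode
  split_ifs with h1
  · omega
  · cases h : l.reverse[i - m]? with
    | none => simp
    | some a => have := a.isLt; simp

/-- code of the top of a stack -/
def topCode : Option (Fin na) → ℕ
  | none => 0
  | some a => a.val + 2

theorem cellCode_top {m : ℕ} (hm : 0 < m) {l : List (Fin na)} {i : ℕ} (h : i + 1 = m + l.length) :
    cellCode m l i = topCode l.head? := by
  cases l with
  | nil =>
    simp only [List.length_nil] at h
    rw [cellCode_lt (by omega)]
    simp [topCode]
  | cons a l =>
    simp only [List.length_cons] at h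
    have h1 : ¬ i < m := by omega
    have h2 : i - m = l.length := by omega
    simp [cellCode, h1, h2, topCode, List.getElem?_append_right]

theorem cellCode_push {m : ℕ} {l : List (Fin na)} {i : ℕ} {a : Fin na} :
    cellCode m (a :: l) i = if i = m + l.length then a.val + 2 else cellCode m l i := by
  split_ifs with h
  · subst h
    have h1 : ¬ m + l.length < m := by omega
    simp [cellCode]
  · unfold cellCode
    split_ifs with h1
    · rfl
    · simp only [List.reverse_cons]
      rcases lt_or_gt_of_ne h with h2 | h2
      · rw [List.getElem?_append_left (by rw [List.length_reverse]; omega)]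
      · rw [List.getElem?_eq_none (by simp; omega), List.getElem?_eq_none (by simp; omega)]

theorem cellCode_tail {m : ℕ} {a : Fin na} {l : List (Fin na)} {i : ℕ} :
    cellCode m l i = if i = m + l.length then 1 else cellCode m (a :: l) i := by
  split_ifs with h
  · rw [cellCode_blank (by omega)]
  · rw [cellCode_push, if_neg h]

/-- new content of a cell as a function of the operation and of the contents of the cell and its two
neighbours -/
def newCode : Op na → ℕ → ℕ → ℕ → ℕ
  | .keep, _, c, _ => c
  | .push a, l, c, _ => if c = 1 ∧ l ≠ 1 then a.val + 2 else c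
  | .pop, _, c, r => if 2 ≤ c ∧ r = 1 then 1 else c

theorem newCode_spec {m : ℕ} (o : Op na) (l : List (Fin na)) (i : ℕ) :
    cellCode m (o.act l) (i+1) =
      newCode o (cellCode m l i) (cellCode m l (i+1)) (cellCode m l (i+2)) := by
  cases o with
  | keep => rfl
  | push a =>
    simp only [Op.act, newCode, cellCode_push]
    by_cases h : i + 1 = m + l.length
    · rw [if_pos h, if_pos]
      exact ⟨cellCode_blank (by omega), cellCode_ne_blank (by omega)⟩
    · rw [if_neg h, if_neg]
      rintro ⟨h1, h2⟩
      rw [cellCode_eq_blank_iff] at h1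
      rw [Ne, cellCode_eq_blank_iff] at h2
      omega
  | pop =>
    simp only [Op.act, newCode]
    cases l with
    | nil =>
      rw [if_neg]
      · rfl
      · rintro ⟨h1, h2⟩
        have : cellCode m ([] : List (Fin na)) (i+1) < 2 := by
          unfold cellCode
          split_ifs <;> simp
        omega
    | cons a l =>
      rw [List.tail_cons, cellCode_tail (a := a)]
      by_cases h : i + 1 = m + l.length
      · rw [if_pos h, if_pos]
        refine ⟨?_, cellCode_blank (by simp; omega)⟩
        rw [cellCode_push, if_pos h]
        omega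
      · rw [if_neg h, if_neg]
        rintro ⟨h1, h2⟩
        rw [cellCode_eq_blank_iff, List.length_cons] at h2
        have h3 : cellCode m (a :: l) (i+1) ≠ 1 := by omega
        rw [Ne, cellCode_eq_blank_iff, List.length_cons] at h3
        omega

end cells

end Pool.Agent.H72.NP
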