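import Mathlib
import Pool.Agent.H72.NP.Tableau

set_option autoImplicit false

namespace Pool.Agent.H72.NP

namespace SM

variable (M : SM)

/-- start state and contents of the stacks other than the input stack at time `0` -/
def cInit (P S : ℕ) : Cnf :=
  [(true, vst 0 M.start.val)] ::
    (List.finRange M.nk).flatMap fun (k : Fin M.nk) =>
      if k = M.inp then [] else
        (List.range (S+1)).map fun i => [(true, vcell 0 k.val i (if i ≤ P then 0 else 1))]

/-- the part of the input stack that holds the witness -/
def cGuess (ew : Bool → Fin M.na) (P : ℕ) : Cnf :=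
  (List.range P).flatMap fun i =>
    [[(true, vcell 0 M.inp.val (i+1) 0), (true, vcell 0 M.inp.val (i+1) ((ew false).val + 2)),
      (true, vcell 0 M.inp.val (i+1) ((ew true).val + 2))],
     [(false, vcell 0 M.inp.val (i+1) 0), (true, vcell 0 M.inp.val i 0)]]

/-- the part of the input stack that holds the input, and the blank part above it -/
def cInput (ex : Bool → Fin M.na) (x : List Bool) (P S : ℕ) : Cnf :=
  (x.reverse.zipIdx.map fun p => [(true, vcell 0 M.inp.val (P + 1 + p.2) ((ex p.1).val + 2))]) ++
  ((List.range (S - (P + x.length))).map fun i => [(true, vcell 0 M.inp.val (P + 1 + x.length + i) 1)])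

/-- lowest and highest cells -/
def cBound (S t : ℕ) : Cnf :=
  (List.finRange M.nk).flatMap fun (k : Fin M.nk) =>
    [[(true, vcell t k.val 0 0)], [(true, vcell t k.val S 1)]]

/-- all possible tops of a stack -/
def tops : List (Option (Fin M.na)) := none :: (List.finRange M.na).map some

/-- transition of the state -/
def cState (t i : ℕ) : Cnf :=
  (List.finRange M.nq).flatMap fun (q : Fin M.nq) => M.tops.map fun o =>
    [(false, vst t q.val), (false, vcell t (M.rd q).val i (topCode o)),
      (false, vcell t (M.rd q).val (i+1) 1), (true, vst (t+1) (M.nx q o).val)]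

/-- transition of the cells -/
def cCell (t i : ℕ) : Cnf :=
  (List.finRange M.nq).flatMap fun (q : Fin M.nq) => (List.finRange M.nk).flatMap fun (k : Fin M.nk) =>
    (List.range (M.na + 2)).flatMap fun l => (List.range (M.na + 2)).flatMap fun c =>
      (List.range (M.na + 2)).map fun r =>
        [(false, vst t q.val), (false, vcell t k.val i l), (false, vcell t k.val (i+1) c),
          (false, vcell t k.val (i+2) r),
          (true, vcell (t+1) k.val (i+1) (if k = M.rd q then newCode (M.op q) l c r else c))]

/-- acceptance at time `T` -/
def cAcc (T : ℕ) : Cnf :=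
  (List.finRange M.nq).flatMap fun (q : Fin M.nq) =>
    if q = M.acc then [] else [[(false, vst T q.val)]]

/-- the whole formula -/
def tableau (ex ew : Bool → Fin M.na) (x : List Bool) (T P S : ℕ) : Cnf :=
  M.cInit P S ++ M.cGuess ew P ++ M.cInput ex x P S ++
    ((List.range (T+1)).flatMap fun t => M.cBound S t) ++
    ((List.range T).flatMap fun t => (List.range S).flatMap fun i => M.cState t i) ++
    ((List.range T).flatMap fun t => (List.range (S-1)).flatMap fun i => M.cCell t i) ++
    M.cAcc T

variable {M}

/-- the assignment describes the run up to time `t` -/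
def Inv (v : ℕ → Bool) (l : List (Fin M.na)) (m : Fin M.nk → ℕ) (S t : ℕ) : Prop :=
  v (vst t (M.run l t).q.val) = true ∧
    ∀ (k : Fin M.nk) (i : ℕ), i ≤ S →
      v (vcell t k.val i (cellCode (m k) ((M.run l t).stk k) i)) = true

theorem length_run_le (l : List (Fin M.na)) (t : ℕ) (k : Fin M.nk) :
    ((M.run l t).stk k).length ≤ ((M.init l).stk k).length + t := by
  induction t with
  | zero => simp [run_zero]
  | succ t ih =>
    rw [run_succ]
    simp only [step]
    by_cases hk : k = M.rd (M.run l t).q
    · subst hk
      rw [Function.update_self]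
      cases M.op (M.run l t).q with
      | keep => simp only [Op.act]; omega
      | push a => simp only [Op.act, List.length_cons]; omega
      | pop => simp only [Op.act, List.length_tail]; omega
    · rw [Function.update_of_ne hk]
      omega

theorem inv_succ {v : ℕ → Bool} {l : List (Fin M.na)} {m : Fin M.nk → ℕ} {S t : ℕ}
    (hm : ∀ k, 0 < m k) (hS : ∀ k, m k + ((M.run l t).stk k).length < S)
    (hS' : ∀ k, m k + ((M.run l (t+1)).stk k).length ≤ S)
    (h : Inv v l m S t)
    (h1 : ∀ c ∈ M.cBound S (t+1), ClauseHolds v c)
    (h2 : ∀ i < S, ∀ c ∈ M.cState t i, ClauseHolds v c)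
    (h3 : ∀ i < S - 1, ∀ c ∈ M.cCell t i, ClauseHolds v c) : Inv v l m S (t+1) := by
  obtain ⟨hq, hc⟩ := h
  set c := M.run l t with hcdef
  refine ⟨?_, ?_⟩
  · -- state
    rw [run_succ, ← hcdef]
    simp only [step]
    set k := M.rd c.q with hk
    have hi := hS k
    have hm' := hm k
    set i := m k + (c.stk k).length - 1 with hidef
    have hi1 : i + 1 = m k + (c.stk k).length := by omega
    have hcl := h2 i (by omega)
      [(false, vst t c.q), (false, vcell t (M.rd c.q) i (topCode (c.stk k).head?)),
        (false, vcell t (M.rd c.q) (i+1) 1), (true, vst (t+1) (M.nx c.q (c.stk k).head?))] (by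
        unfold cState
        rw [List.mem_flatMap]
        refine ⟨c.q, List.mem_finRange _, ?_⟩
        rw [List.mem_map]
        refine ⟨(c.stk k).head?, ?_, rfl⟩
        unfold tops
        cases (c.stk k).head? with
        | none => simp
        | some a => simp)
    have e1 : v (vcell t (M.rd c.q) i (topCode (c.stk k).head?)) = true := by
      rw [← cellCode_top hm' hi1]
      exact hc k i (by omega)
    have e2 : v (vcell t (M.rd c.q) (i+1) 1) = true := by
      have := hc k (i+1) (by omega)
      rwa [cellCode_blank (by omega)] at this
    obtain ⟨lit, hlit, hv⟩ := hcl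
    simp only [List.mem_cons, List.not_mem_nil, or_false] at hlit
    rcases hlit with rfl | rfl | rfl | rfl
    · rw [hq] at hv; simp at hv
    · simp only at hv; rw [e1] at hv; simp at hv
    · simp only at hv; rw [e2] at hv; simp at hv
    · exact hv
  · intro k i hi
    have hb : ∀ c ∈ [[(true, vcell (t+1) k 0 0)], [(true, vcell (t+1) k S 1)]],
        ClauseHolds v c := by
      intro c hc
      exact h1 c (by unfold cBound; rw [List.mem_flatMap]; exact ⟨k, List.mem_finRange _, hc⟩)
    rcases Nat.eq_zero_or_pos i with rfl | hi0
    · rw [cellCode_lt (hm k)]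
      obtain ⟨lit, hlit, hv⟩ := hb _ (List.mem_cons_self)
      simp only [List.mem_cons, List.not_mem_nil, or_false] at hlit
      subst hlit
      exact hv
    rcases Nat.lt_or_ge i S with hiS | hiS
    · obtain ⟨j, rfl⟩ : ∃ j, i = j + 1 := ⟨i - 1, by omega⟩
      have hj : j < S - 1 := by omega
      have hcl := h3 j hj
        [(false, vst t c.q), (false, vcell t k j (cellCode (m k) (c.stk k) j)),
          (false, vcell t k (j+1) (cellCode (m k) (c.stk k) (j+1))),
          (false, vcell t k (j+2) (cellCode (m k) (c.stk k) (j+2))),
          (true, vcell (t+1) k (j+1) (if k = M.rd c.q then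
            newCode (M.op c.q) (cellCode (m k) (c.stk k) j) (cellCode (m k) (c.stk k) (j+1))
              (cellCode (m k) (c.stk k) (j+2)) else cellCode (m k) (c.stk k) (j+1)))] (by
          unfold cCell
          rw [List.mem_flatMap]
          refine ⟨c.q, List.mem_finRange _, ?_⟩
          rw [List.mem_flatMap]
          refine ⟨k, List.mem_finRange _, ?_⟩
          rw [List.mem_flatMap]
          refine ⟨_, List.mem_range.2 (cellCode_lt_na (m := m k) (l := c.stk k) (i := j)), ?_⟩
          rw [List.mem_flatMap]
          refine ⟨_, List.mem_range.2 (cellCode_lt_na (m := m k) (l := c.stk k) (i := j+1)), ?_⟩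
          rw [List.mem_map]
          exact ⟨_, List.mem_range.2 (cellCode_lt_na (m := m k) (l := c.stk k) (i := j+2)), rfl⟩)
      obtain ⟨lit, hlit, hv⟩ := hcl
      simp only [List.mem_cons, List.not_mem_nil, or_false] at hlit
      rcases hlit with rfl | rfl | rfl | rfl | rfl
      · rw [hq] at hv; simp at hv
      · simp only at hv; rw [hc k j (by omega)] at hv; simp at hv
      · simp only at hv; rw [hc k (j+1) (by omega)] at hv; simp at hv
      · simp only at hv; rw [hc k (j+2) (by omega)] at hv; simp at hv
      · simp only at hv
        have e : cellCode (m k) ((M.run l (t+1)).stk k) (j+1) = (if k = M.rd c.q then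
            newCode (M.op c.q) (cellCode (m k) (c.stk k) j) (cellCode (m k) (c.stk k) (j+1))
              (cellCode (m k) (c.stk k) (j+2)) else cellCode (m k) (c.stk k) (j+1)) := by
          rw [run_succ, ← hcdef]
          simp only [step]
          by_cases hk : k = M.rd c.q
          · subst hk
            rw [Function.update_self, if_pos rfl, newCode_spec]
          · rw [Function.update_of_ne hk, if_neg hk]
        rw [e]
        exact hv
    · have : i = S := by omega
      subst this
      rw [cellCode_blank (hS' k)]
      obtain ⟨lit, hlit, hv⟩ := hb _ (List.mem_cons_of_mem _ (List.mem_cons_self))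
      simp only [List.mem_cons, List.not_mem_nil, or_false] at hlit
      subst hlit
      exact hv

end SM

end Pool.Agent.H72.NP
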