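import Mathlib
import Pool.Agent.H72.NP.Tableau2

set_option autoImplicit false

namespace Pool.Agent.H72.NP

namespace SM

variable {M : SM}

theorem mem_tableau {ex ew : Bool → Fin M.na} {x : List Bool} {T P S : ℕ} {c : List Lit} :
    c ∈ M.tableau ex ew x T P S ↔
      c ∈ M.cInit P S ∨ c ∈ M.cGuess ew P ∨ c ∈ M.cInput ex x P S ∨
      (∃ t ≤ T, c ∈ M.cBound S t) ∨ (∃ t < T, ∃ i < S, c ∈ M.cState t i) ∨
      (∃ t < T, ∃ i < S - 1, c ∈ M.cCell t i) ∨ c ∈ M.cAcc T := by
  simp only [tableau, List.mem_append, List.mem_flatMap, List.mem_range, Nat.lt_succ_iff, or_assoc]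

theorem init_inp (l : List (Fin M.na)) : (M.init l).stk M.inp = l := by
  simp [init]

theorem init_other (l : List (Fin M.na)) {k : Fin M.nk} (h : k ≠ M.inp) :
    (M.init l).stk k = [] := by
  simp [init, h]

/-- a satisfying assignment yields a witness -/
theorem run_of_sat {ex ew : Bool → Fin M.na} {x : List Bool} {T P S : ℕ}
    (hS : P + 1 + x.length + T < S) (h : (M.tableau ex ew x T P S).Sat) :
    ∃ w : List Bool, w.length ≤ P ∧ (M.run (x.map ex ++ w.map ew) T).q = M.acc := by
  obtain ⟨v, hv⟩ := h
  have hv' : ∀ c ∈ M.tableau ex ew x T P S, ClauseHolds v c := hv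
  -- the bottom markers
  have hbound : ∀ t ≤ T, ∀ c ∈ M.cBound S t, ClauseHolds v c := fun t ht c hc =>
    hv' c (mem_tableau.2 (Or.inr (Or.inr (Or.inr (Or.inl ⟨t, ht, hc⟩)))))
  have hbot0 : v (vcell 0 M.inp.val 0 0) = true := by
    obtain ⟨lit, hlit, h⟩ := hbound 0 (Nat.zero_le _) [(true, vcell 0 M.inp.val 0 0)] (by
      unfold cBound; rw [List.mem_flatMap]
      exact ⟨M.inp, List.mem_finRange _, List.mem_cons_self⟩)
    simp only [List.mem_cons, List.not_mem_nil, or_false] at hlit
    subst hlit
    exact h
  have hmono : ∀ i < P, v (vcell 0 M.inp.val (i+1) 0) = true → v (vcell 0 M.inp.val i 0) = true := by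
    intro i hi h1
    obtain ⟨lit, hlit, h⟩ := hv' [(false, vcell 0 M.inp.val (i+1) 0), (true, vcell 0 M.inp.val i 0)]
      (mem_tableau.2 (Or.inr (Or.inl (by
        unfold cGuess; rw [List.mem_flatMap]
        exact ⟨i, List.mem_range.2 hi, by simp⟩))))
    simp only [List.mem_cons, List.not_mem_nil, or_false] at hlit
    rcases hlit with rfl | rfl
    · simp only at h; rw [h1] at h; simp at h
    · exact h
  have hguess : ∀ i < P, v (vcell 0 M.inp.val (i+1) 0) = true ∨
      v (vcell 0 M.inp.val (i+1) ((ew false).val + 2)) = true ∨
      v (vcell 0 M.inp.val (i+1) ((ew true).val + 2)) = true := by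
    intro i hi
    obtain ⟨lit, hlit, h⟩ := hv' [(true, vcell 0 M.inp.val (i+1) 0),
      (true, vcell 0 M.inp.val (i+1) ((ew false).val + 2)),
      (true, vcell 0 M.inp.val (i+1) ((ew true).val + 2))]
      (mem_tableau.2 (Or.inr (Or.inl (by
        unfold cGuess; rw [List.mem_flatMap]
        exact ⟨i, List.mem_range.2 hi, by simp⟩))))
    simp only [List.mem_cons, List.not_mem_nil, or_false] at hlit
    rcases hlit with rfl | rfl | rfl
    · exact Or.inl h
    · exact Or.inr (Or.inl h)
    · exact Or.inr (Or.inr h)
  -- number of bottom markers
  obtain ⟨m, hm0, hmP, hlow, hhigh⟩ : ∃ m, 0 < m ∧ m ≤ P + 1 ∧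
      (∀ i < m, v (vcell 0 M.inp.val i 0) = true) ∧
      (∀ i, m ≤ i → i ≤ P → v (vcell 0 M.inp.val i 0) ≠ true) := by
    have key : ∀ n ≤ P, ∃ m, 0 < m ∧ m ≤ n + 1 ∧
      (∀ i < m, v (vcell 0 M.inp.val i 0) = true) ∧
      (∀ i, m ≤ i → i ≤ n → v (vcell 0 M.inp.val i 0) ≠ true) := by
      intro n
      induction n with
      | zero =>
        intro _
        exact ⟨1, by omega, by omega, fun i hi => by
          have : i = 0 := by omega
          subst this; exact hbot0, fun i h1 h2 => by omega⟩
      | succ n ih =>
        intro hn
        obtain ⟨m, h0, h1, h2, h3⟩ := ih (by omega)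
        by_cases hc : v (vcell 0 M.inp.val (n+1) 0) = true
        · have hnm : m = n + 1 := by
            by_contra hne
            have hcn := hmono n (by omega) hc
            exact h3 n (by omega) (le_refl _) hcn
          refine ⟨n + 2, by omega, by omega, fun i hi => ?_, fun i h4 h5 => by omega⟩
          rcases Nat.lt_or_ge i (n+1) with h6 | h6
          · exact h2 i (by omega)
          · have : i = n + 1 := by omega
            subst this; exact hc
        · refine ⟨m, h0, by omega, h2, fun i h4 h5 => ?_⟩
          rcases Nat.lt_or_ge i (n+1) with h6 | h6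
          · exact h3 i h4 (by omega)
          · have : i = n + 1 := by omega
            subst this; exact hc
    exact key P (le_refl _)
  -- the witness
  set g : ℕ → Bool := fun j => v (vcell 0 M.inp.val (m + j) ((ew true).val + 2)) with hg
  set w : List Bool := ((List.range (P + 1 - m)).map g).reverse with hw
  have hwl : w.length = P + 1 - m := by simp [hw]
  refine ⟨w, by omega, ?_⟩
  set l := x.map ex ++ w.map ew with hl
  have hll : l.length = x.length + (P + 1 - m) := by simp [hl, hwl]
  set mm : Fin M.nk → ℕ := fun k => if k = M.inp then m else P + 1 with hmm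
  have hmmpos : ∀ k, 0 < mm k := by
    intro k; simp only [hmm]; split_ifs <;> omega
  have hsize : ∀ k t, mm k + ((M.run l t).stk k).length ≤ P + 1 + x.length + t := by
    intro k t
    have h1 := length_run_le l t k
    by_cases hk : k = M.inp
    · subst hk
      rw [init_inp, hll] at h1
      simp only [hmm, if_true]
      omega
    · rw [init_other l hk, List.length_nil] at h1
      simp only [hmm, if_neg hk]
      omega
  have hinv0 : Inv v l mm S 0 := by
    refine ⟨?_, ?_⟩
    · obtain ⟨lit, hlit, h⟩ := hv' [(true, vst 0 M.start.val)] (mem_tableau.2 (Or.inl (by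
        unfold cInit; exact List.mem_cons_self)))
      simp only [List.mem_cons, List.not_mem_nil, or_false] at hlit
      subst hlit
      exact h
    · intro k i hi
      rw [run_zero]
      by_cases hk : k = M.inp
      · subst hk
        rw [init_inp]
        have hmi : mm M.inp = m := by simp [hmm]
        rw [hmi]
        rcases Nat.lt_or_ge i m with h1 | h1
        · rw [cellCode_lt h1]
          exact hlow i h1
        rcases Nat.lt_or_ge i (P+1) with h2 | h2
        · -- witness part
          have h3 : l.reverse[i - m]? = some (ew (g (i - m))) := by
            rw [hl, List.reverse_append, List.getElem?_append_left (by simp [hwl]; omega)]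
            rw [← List.map_reverse, hw, List.reverse_reverse, List.map_map, List.getElem?_map,
              List.getElem?_range (by omega)]
            rfl
          have h4 : cellCode m l i = (ew (g (i - m))).val + 2 := by
            simp [cellCode, h3, not_lt.2 h1]
          rw [h4]
          obtain ⟨j, rfl⟩ : ∃ j, i = j + 1 := ⟨i - 1, by omega⟩
          have h5 : m + (j + 1 - m) = j + 1 := by omega
          rcases hguess j (by omega) with h | h | h
          · exact absurd h (hhigh (j+1) h1 (by omega))
          · by_cases hgt : g (j + 1 - m) = true
            · rw [hgt]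
              simp only [hg, h5] at hgt
              exact hgt
            · rw [Bool.not_eq_true] at hgt
              rw [hgt]
              exact h
          · have : g (j + 1 - m) = true := by simp only [hg, h5]; exact h
            rw [this]
            exact h
        · rcases Nat.lt_or_ge i (P + 1 + x.length) with h3 | h3
          · -- input part
            have hx : i - (P + 1) < x.reverse.length := by rw [List.length_reverse]; omega
            have h4 : l.reverse[i - m]? = some (ex (x.reverse[i - (P+1)]'hx)) := by
              rw [hl, List.reverse_append, List.getElem?_append_right (by simp [hwl]; omega)]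
              rw [← List.map_reverse, List.getElem?_map]
              have : i - m - (List.map ew w).reverse.length = i - (P + 1) := by
                simp [hwl]; omega
              rw [this, List.getElem?_eq_getElem hx]
              rfl
            have h5 : cellCode m l i = (ex (x.reverse[i - (P+1)]'hx)).val + 2 := by
              simp only [cellCode, not_lt.2 h1, if_false, h4]
            rw [h5]
            obtain ⟨lit, hlit, h⟩ := hv' [(true, vcell 0 M.inp.val (P + 1 + (i - (P+1)))
              ((ex (x.reverse[i - (P+1)]'hx)).val + 2))] (mem_tableau.2 (Or.inr (Or.inr (Or.inl (by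
                unfold cInput
                rw [List.mem_append]
                left
                rw [List.mem_map]
                refine ⟨(x.reverse[i - (P+1)]'hx, i - (P+1)), ?_, rfl⟩
                rw [List.mem_zipIdx_iff_getElem?]
                exact List.getElem?_eq_getElem hx)))))
            simp only [List.mem_cons, List.not_mem_nil, or_false] at hlit
            subst hlit
            simp only at h
            have h6 : P + 1 + (i - (P + 1)) = i := by omega
            rw [h6] at h
            exact h
          · rw [cellCode_blank (by omega)]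
            obtain ⟨lit, hlit, h⟩ := hv' [(true, vcell 0 M.inp.val
              (P + 1 + x.length + (i - (P + 1 + x.length))) 1)]
              (mem_tableau.2 (Or.inr (Or.inr (Or.inl (by
                unfold cInput
                rw [List.mem_append]
                right
                rw [List.mem_map]
                exact ⟨i - (P + 1 + x.length), List.mem_range.2 (by omega), rfl⟩)))))
            simp only [List.mem_cons, List.not_mem_nil, or_false] at hlit
            subst hlit
            simp only at h
            have h6 : P + 1 + x.length + (i - (P + 1 + x.length)) = i := by omega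
            rw [h6] at h
            exact h
      · rw [init_other l hk]
        have hmi : mm k = P + 1 := by simp [hmm, hk]
        rw [hmi]
        obtain ⟨lit, hlit, h⟩ := hv' [(true, vcell 0 k.val i (if i ≤ P then 0 else 1))]
          (mem_tableau.2 (Or.inl (by
            unfold cInit
            refine List.mem_cons_of_mem _ ?_
            rw [List.mem_flatMap]
            refine ⟨k, List.mem_finRange _, ?_⟩
            rw [if_neg hk, List.mem_map]
            exact ⟨i, List.mem_range.2 (by omega), rfl⟩)))
        simp only [List.mem_cons, List.not_mem_nil, or_false] at hlit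
        subst hlit
        simp only at h
        split_ifs at h with h1
        · rw [cellCode_lt (by omega)]; exact h
        · rw [cellCode_blank (by simp; omega)]; exact h
  have hinv : ∀ t ≤ T, Inv v l mm S t := by
    intro t
    induction t with
    | zero => intro _; exact hinv0
    | succ t ih =>
      intro ht
      refine inv_succ hmmpos (fun k => ?_) (fun k => ?_) (ih (by omega)) (hbound (t+1) ht)
        (fun i hi c hc => hv' c (mem_tableau.2 ?_)) (fun i hi c hc => hv' c (mem_tableau.2 ?_))
      · have := hsize k t; omega
      · have := hsize k (t+1); omega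
      · exact Or.inr (Or.inr (Or.inr (Or.inr (Or.inl ⟨t, by omega, i, hi, hc⟩))))
      · exact Or.inr (Or.inr (Or.inr (Or.inr (Or.inr (Or.inl ⟨t, by omega, i, hi, hc⟩)))))
  by_contra hne
  obtain ⟨lit, hlit, h⟩ := hv' [(false, vst T (M.run l T).q.val)] (mem_tableau.2
    (Or.inr (Or.inr (Or.inr (Or.inr (Or.inr (Or.inr (by
      unfold cAcc
      rw [List.mem_flatMap]
      refine ⟨(M.run l T).q, List.mem_finRange _, ?_⟩
      rw [if_neg hne]
      exact List.mem_cons_self))))))))
  simp only [List.mem_cons, List.not_mem_nil, or_false] at hlit
  subst hlit
  simp only at h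
  rw [(hinv T (le_refl _)).1] at h
  simp at h

end SM

end Pool.Agent.H72.NP
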