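import Mathlib
import Pool.Agent.H72.NP.Tableau3

set_option autoImplicit false

namespace Pool.Agent.H72.NP

namespace SM

variable {M : SM}

open Classical in
/-- the assignment read off from a run -/
noncomputable def asg (l : List (Fin M.na)) (m : Fin M.nk → ℕ) (n : ℕ) : Bool :=
  decide ((∃ t, n = vst t (M.run l t).q.val) ∨
    ∃ t, ∃ k : Fin M.nk, ∃ i, n = vcell t k.val i (cellCode (m k) ((M.run l t).stk k) i))

open Classical in
theorem asg_vst {l : List (Fin M.na)} {m : Fin M.nk → ℕ} {t q : ℕ} :
    asg l m (vst t q) = true ↔ q = (M.run l t).q.val := by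
  unfold asg
  rw [decide_eq_true_iff]
  constructor
  · rintro (⟨t', h⟩ | ⟨t', k, i, h⟩)
    · obtain ⟨rfl, rfl⟩ := vst_inj h
      rfl
    · exact absurd h vst_ne_vcell
  · rintro rfl
    exact Or.inl ⟨t, rfl⟩

open Classical in
theorem asg_vcell {l : List (Fin M.na)} {m : Fin M.nk → ℕ} {t i b : ℕ} {k : Fin M.nk} :
    asg l m (vcell t k.val i b) = true ↔ b = cellCode (m k) ((M.run l t).stk k) i := by
  unfold asg
  rw [decide_eq_true_iff]
  constructor
  · rintro (⟨t', h⟩ | ⟨t', k', i', h⟩)
    · exact absurd h.symm vst_ne_vcell
    · obtain ⟨rfl, hk, rfl, rfl⟩ := vcell_inj h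
      have hk' : k = k' := Fin.ext hk
      subst hk'
      rfl
  · rintro rfl
    exact Or.inr ⟨t, k, i, rfl⟩

theorem clause_unit {v : ℕ → Bool} {n : ℕ} (h : v n = true) : ClauseHolds v [(true, n)] :=
  ⟨(true, n), by simp, h⟩

theorem topCode_inj {na : ℕ} {o o' : Option (Fin na)} (h : topCode o = topCode o') : o = o' := by
  cases o with
  | none => cases o' with
    | none => rfl
    | some b => simp [topCode] at h
  | some a => cases o' with
    | none => simp [topCode] at h
    | some b =>
      simp only [topCode] at h
      have : a.val = b.val := by omega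
      rw [Fin.ext this]

/-- an accepting run yields a satisfying assignment -/
theorem sat_of_run {ex ew : Bool → Fin M.na} {x : List Bool} {T P S : ℕ}
    (hS : P + 1 + x.length + T < S) {w : List Bool} (hw : w.length ≤ P)
    (hacc : (M.run (x.map ex ++ w.map ew) T).q = M.acc) :
    (M.tableau ex ew x T P S).Sat := by
  set l := x.map ex ++ w.map ew with hl
  set mm : Fin M.nk → ℕ := fun k => if k = M.inp then P + 1 - w.length else P + 1 with hmm
  have hmmpos : ∀ k, 0 < mm k := by
    intro k; simp only [hmm]; split_ifs <;> omega
  have hll : l.length = x.length + w.length := by simp [hl]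
  have hsize : ∀ k t, mm k + ((M.run l t).stk k).length ≤ P + 1 + x.length + t := by
    intro k t
    have h1 := length_run_le l t k
    by_cases hk : k = M.inp
    · subst hk
      rw [init_inp, hll] at h1
      simp only [hmm, if_true]
      omega
    · rw [init_other l hk, List.length_nil] at h1
      simp only [hmm, if_neg hk]
      omega
  refine ⟨asg l mm, ?_⟩
  intro c hc
  change ClauseHolds (asg l mm) c
  rw [mem_tableau] at hc
  rcases hc with hc | hc | hc | ⟨t, ht, hc⟩ | ⟨t, ht, i, hi, hc⟩ | ⟨t, ht, i, hi, hc⟩ | hc
  · -- initial
    unfold cInit at hc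
    rw [List.mem_cons] at hc
    rcases hc with rfl | hc
    · exact clause_unit (asg_vst.2 rfl)
    · rw [List.mem_flatMap] at hc
      obtain ⟨k, -, hc⟩ := hc
      split_ifs at hc with hk
      · simp at hc
      · rw [List.mem_map] at hc
        obtain ⟨i, hi, rfl⟩ := hc
        refine clause_unit (asg_vcell.2 ?_)
        rw [run_zero, init_other l hk]
        have hmi : mm k = P + 1 := by simp [hmm, hk]
        rw [hmi]
        split_ifs with h1
        · rw [cellCode_lt (by omega)]
        · rw [cellCode_blank (by simp; omega)]
  · -- witness part
    unfold cGuess at hc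
    rw [List.mem_flatMap] at hc
    obtain ⟨i, hi, hc⟩ := hc
    rw [List.mem_range] at hi
    have hmi : mm M.inp = P + 1 - w.length := by simp [hmm]
    simp only [List.mem_cons, List.not_mem_nil, or_false] at hc
    rcases hc with rfl | rfl
    · rcases Nat.lt_or_ge (i+1) (P + 1 - w.length) with h1 | h1
      · refine ⟨(true, vcell 0 M.inp.val (i+1) 0), by simp, asg_vcell.2 ?_⟩
        rw [run_zero, init_inp, hmi, cellCode_lt h1]
      · have hx : i + 1 - (P + 1 - w.length) < w.reverse.length := by
          rw [List.length_reverse]; omega
        have h2 : l.reverse[i + 1 - (P + 1 - w.length)]? =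
            some (ew (w.reverse[i + 1 - (P + 1 - w.length)]'hx)) := by
          rw [hl, List.reverse_append, List.getElem?_append_left (by simp; omega),
            ← List.map_reverse, List.getElem?_map, List.getElem?_eq_getElem hx]
          rfl
        have h3 : cellCode (P + 1 - w.length) l (i+1) =
            (ew (w.reverse[i + 1 - (P + 1 - w.length)]'hx)).val + 2 := by
          simp only [cellCode, not_lt.2 h1, if_false, h2]
        cases hb : (w.reverse[i + 1 - (P + 1 - w.length)]'hx) with
        | false =>
          refine ⟨(true, vcell 0 M.inp.val (i+1) ((ew false).val + 2)), by simp, asg_vcell.2 ?_⟩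
          rw [run_zero, init_inp, hmi, h3, hb]
        | true =>
          refine ⟨(true, vcell 0 M.inp.val (i+1) ((ew true).val + 2)), by simp, asg_vcell.2 ?_⟩
          rw [run_zero, init_inp, hmi, h3, hb]
    · rcases Nat.lt_or_ge (i+1) (P + 1 - w.length) with h1 | h1
      · refine ⟨(true, vcell 0 M.inp.val i 0), by simp, asg_vcell.2 ?_⟩
        rw [run_zero, init_inp, hmi, cellCode_lt (by omega)]
      · refine ⟨(false, vcell 0 M.inp.val (i+1) 0), by simp, ?_⟩
        simp only
        rw [← Bool.not_eq_true, asg_vcell, run_zero, init_inp, hmi]
        intro h2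
        unfold cellCode at h2
        rw [if_neg (not_lt.2 h1)] at h2
        have h3 : i + 1 - (P + 1 - w.length) < l.reverse.length := by
          rw [List.length_reverse, hl, List.length_append, List.length_map, List.length_map]
          omega
        rw [List.getElem?_eq_getElem h3] at h2
        simp at h2
  · -- input part
    have hmi : mm M.inp = P + 1 - w.length := by simp [hmm]
    unfold cInput at hc
    rw [List.mem_append] at hc
    rcases hc with hc | hc
    · rw [List.mem_map] at hc
      obtain ⟨⟨b, j⟩, hp, rfl⟩ := hc
      rw [List.mem_zipIdx_iff_getElem?] at hp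
      simp only at hp
      refine clause_unit (asg_vcell.2 ?_)
      rw [run_zero, init_inp, hmi]
      have hj : j < x.length := by
        have := (List.getElem?_eq_some_iff.1 hp).1
        simpa using this
      have h2 : l.reverse[P + 1 + j - (P + 1 - w.length)]? = some (ex b) := by
        rw [hl, List.reverse_append, List.getElem?_append_right (by simp; omega),
          ← List.map_reverse, List.getElem?_map]
        have : P + 1 + j - (P + 1 - w.length) - (List.map ew w).reverse.length = j := by
          simp; omega
        rw [this, hp]
        rfl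
      have h1 : ¬ (P + 1 + j < P + 1 - w.length) := by omega
      simp only [cellCode, h1, if_false, h2]
    · rw [List.mem_map] at hc
      obtain ⟨i, hi, rfl⟩ := hc
      rw [List.mem_range] at hi
      refine clause_unit (asg_vcell.2 ?_)
      rw [run_zero, init_inp, hmi, cellCode_blank]
      rw [hl, List.length_append, List.length_map, List.length_map]
      omega
  · -- lowest and highest cells
    unfold cBound at hc
    rw [List.mem_flatMap] at hc
    obtain ⟨k, -, hc⟩ := hc
    simp only [List.mem_cons, List.not_mem_nil, or_false] at hc
    rcases hc with rfl | rfl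
    · exact clause_unit (asg_vcell.2 (by rw [cellCode_lt (hmmpos k)]))
    · refine clause_unit (asg_vcell.2 ?_)
      rw [cellCode_blank]
      have := hsize k t
      omega
  · -- state transition
    unfold cState at hc
    rw [List.mem_flatMap] at hc
    obtain ⟨q, -, hc⟩ := hc
    rw [List.mem_map] at hc
    obtain ⟨o, -, rfl⟩ := hc
    by_cases h1 : asg l mm (vst t q.val) = true
    · by_cases h2 : asg l mm (vcell t (M.rd q).val i (topCode o)) = true
      · by_cases h3 : asg l mm (vcell t (M.rd q).val (i+1) 1) = true
        · refine ⟨(true, vst (t+1) (M.nx q o).val), by simp, asg_vst.2 ?_⟩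
          have e1 : q = (M.run l t).q := Fin.ext (asg_vst.1 h1)
          have e2 := asg_vcell.1 h2
          have e3 := (asg_vcell.1 h3).symm
          rw [cellCode_eq_blank_iff] at e3
          have e4 : i < mm (M.rd q) + ((M.run l t).stk (M.rd q)).length := by
            by_contra hcon
            rw [cellCode_blank (by omega)] at e2
            cases o <;> simp [topCode] at e2
          have e5 : i + 1 = mm (M.rd q) + ((M.run l t).stk (M.rd q)).length := by omega
          rw [cellCode_top (hmmpos _) e5] at e2
          have e6 := topCode_inj e2
          rw [run_succ]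
          simp only [step]
          rw [← e1, e6]
        · exact ⟨(false, vcell t (M.rd q).val (i+1) 1), by simp, by simpa using h3⟩
      · exact ⟨(false, vcell t (M.rd q).val i (topCode o)), by simp, by simpa using h2⟩
    · exact ⟨(false, vst t q.val), by simp, by simpa using h1⟩
  · -- cell transition
    unfold cCell at hc
    simp only [List.mem_flatMap, List.mem_map, List.mem_finRange, true_and] at hc
    obtain ⟨q, k, a, -, b, -, r, -, rfl⟩ := hc
    by_cases h1 : asg l mm (vst t q.val) = true
    · by_cases h2 : asg l mm (vcell t k.val i a) = true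
      · by_cases h3 : asg l mm (vcell t k.val (i+1) b) = true
        · by_cases h4 : asg l mm (vcell t k.val (i+2) r) = true
          · refine ⟨(true, vcell (t+1) k.val (i+1) (if k = M.rd q then newCode (M.op q) a b r else b)),
              by simp, asg_vcell.2 ?_⟩
            have e1 : q = (M.run l t).q := Fin.ext (asg_vst.1 h1)
            rw [asg_vcell.1 h2, asg_vcell.1 h3, asg_vcell.1 h4, run_succ]
            simp only [step]
            rw [← e1]
            split_ifs with hk
            · subst hk
              rw [Function.update_self, newCode_spec]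
            · rw [Function.update_of_ne hk]
          · exact ⟨(false, vcell t k.val (i+2) r), by simp, by simpa using h4⟩
        · exact ⟨(false, vcell t k.val (i+1) b), by simp, by simpa using h3⟩
      · exact ⟨(false, vcell t k.val i a), by simp, by simpa using h2⟩
    · exact ⟨(false, vst t q.val), by simp, by simpa using h1⟩
  · -- acceptance
    unfold cAcc at hc
    rw [List.mem_flatMap] at hc
    obtain ⟨q, -, hc⟩ := hc
    split_ifs at hc with hq
    · simp at hc
    · simp only [List.mem_cons, List.not_mem_nil, or_false] at hc
      subst hc
      refine ⟨(false, vst T q.val), by simp, ?_⟩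
      simp only
      rw [← Bool.not_eq_true, asg_vst, hacc]
      intro h
      exact hq (Fin.ext h)

/-- the tableau formula is satisfiable iff some witness of length at most `P` is accepted -/
theorem tableau_sat_iff {ex ew : Bool → Fin M.na} {x : List Bool} {T P S : ℕ}
    (hS : P + 1 + x.length + T < S) :
    (M.tableau ex ew x T P S).Sat ↔
      ∃ w : List Bool, w.length ≤ P ∧ (M.run (x.map ex ++ w.map ew) T).q = M.acc :=
  ⟨run_of_sat hS, fun ⟨_, h1, h2⟩ => sat_of_run hS h1 h2⟩

end SM

end Pool.Agent.H72.NP
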