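import Mathlib
import Pool.Agent.H72.NP.Tableau4

set_option autoImplicit false

namespace Pool.Agent.H72.NP

open Turing Turing.TM2

/-- operation of a general stack machine -/
inductive GOp (A : Type)
  | keep
  | push (a : A)
  | pop

/-- effect of an operation on a stack -/
def GOp.act {A : Type} : GOp A → List A → List A
  | .keep, s => s
  | .push a, s => a :: s
  | .pop, s => s.tail

/-- a stack machine over arbitrary types -/
structure GM (Q K A : Type) where
  rd : Q → K
  op : Q → GOp A
  nx : Q → Option A → Q

namespace GM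

variable {Q K A : Type} [DecidableEq K]

/-- one step -/
def step (G : GM Q K A) (c : Q × (K → List A)) : Q × (K → List A) :=
  (G.nx c.1 (c.2 (G.rd c.1)).head?,
   Function.update c.2 (G.rd c.1) ((G.op c.1).act (c.2 (G.rd c.1))))

end GM

namespace Sim

variable {K : Type} {Γ : K → Type} {Λ σ : Type}

/-- number of elementary operations in a statement -/
def cost : Stmt Γ Λ σ → ℕ
  | .push _ _ q => cost q + 1
  | .peek _ _ q => cost q + 1
  | .pop _ _ q => cost q + 1
  | .load _ q => cost q + 1
  | .branch _ a b => max (cost a) (cost b) + 1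
  | .goto _ => 1
  | .halt => 1

open Classical in
/-- symbols pushed by the first operation of a statement -/
noncomputable def pushed [Fintype σ] : Stmt Γ Λ σ → Finset (Σ k, Γ k)
  | .push k f _ => Finset.univ.image fun v => ⟨k, f v⟩
  | _ => ∅

section

variable [DecidableEq K] [Fintype K] [Fintype Λ] [Fintype σ]

open Classical in
/-- all statements occurring in the machine -/
noncomputable def stmtSet (m : Λ → Stmt Γ Λ σ) : Finset (Stmt Γ Λ σ) :=
  Finset.univ.biUnion fun l => stmts₁ (m l)

open Classical in
/-- all symbols that can occur on a stack -/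
noncomputable def symSet (m : Λ → Stmt Γ Λ σ) (k₀ : K) [Fintype (Γ k₀)] : Finset (Σ k, Γ k) :=
  ((stmtSet m).biUnion pushed) ∪ Finset.univ.image fun a => ⟨k₀, a⟩

theorem mem_stmtSet_main (m : Λ → Stmt Γ Λ σ) (l : Λ) : m l ∈ stmtSet m := by
  classical
  unfold stmtSet
  rw [Finset.mem_biUnion]
  exact ⟨l, Finset.mem_univ _, stmts₁_self⟩

theorem mem_stmtSet_sub {m : Λ → Stmt Γ Λ σ} {s s' : Stmt Γ Λ σ} (hs : s ∈ stmtSet m)
    (h : s' ∈ stmts₁ s) : s' ∈ stmtSet m := by
  classical
  unfold stmtSet at hs ⊢
  rw [Finset.mem_biUnion] at hs ⊢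
  obtain ⟨l, hl, hs⟩ := hs
  exact ⟨l, hl, stmts₁_trans hs h⟩

/-- states of the simulating machine: a statement still to be executed together with the internal
state, or `none` (machine has halted, output to be tested), or accepted, or rejected -/
abbrev QT (m : Λ → Stmt Γ Λ σ) : Type := ({s // s ∈ stmtSet m} × σ) ⊕ Option Bool

/-- symbols of the simulating machine -/
abbrev AT (m : Λ → Stmt Γ Λ σ) (k₀ : K) [Fintype (Γ k₀)] : Type := {a // a ∈ symSet m k₀}

/-- read a symbol back as a symbol of stack `k` -/
def toΓ (k : K) (a : Σ k, Γ k) : Option (Γ k) :=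
  if h : a.1 = k then some (h ▸ a.2) else none

omit [Fintype K] in
theorem toΓ_mk (k : K) (g : Γ k) : toΓ k ⟨k, g⟩ = some g := by
  simp [toΓ]

variable (m : Λ → Stmt Γ Λ σ) (k₀ k₁ : K) [Fintype (Γ k₀)]

/-- stack that is read in a state -/
def rdT : QT m → K
  | Sum.inl (⟨.push k _ _, _⟩, _) => k
  | Sum.inl (⟨.peek k _ _, _⟩, _) => k
  | Sum.inl (⟨.pop k _ _, _⟩, _) => k
  | Sum.inl (⟨.load _ _, _⟩, _) => k₁
  | Sum.inl (⟨.branch _ _ _, _⟩, _) => k₁
  | Sum.inl (⟨.goto _, _⟩, _) => k₁
  | Sum.inl (⟨.halt, _⟩, _) => k₁
  | Sum.inr _ => k₁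

/-- operation performed in a state -/
noncomputable def opT : QT m → GOp (AT m k₀)
  | Sum.inl (⟨.push k f q, h⟩, v) => GOp.push ⟨⟨k, f v⟩, by
      classical
      unfold symSet
      rw [Finset.mem_union]
      left
      rw [Finset.mem_biUnion]
      refine ⟨_, h, ?_⟩
      simp only [pushed, Finset.mem_image, Finset.mem_univ, true_and]
      exact ⟨v, rfl⟩⟩
  | Sum.inl (⟨.pop _ _ _, _⟩, _) => GOp.pop
  | _ => GOp.keep

/-- next state -/
noncomputable def nxT (good : Γ k₁) : QT m → Option (AT m k₀) → QT m
  | Sum.inl (⟨.push k f q, h⟩, v), _ => Sum.inl (⟨q, mem_stmtSet_sub h (by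
      classical
      simp only [stmts₁, Finset.mem_insert]; right; exact stmts₁_self)⟩, v)
  | Sum.inl (⟨.peek k f q, h⟩, v), o => Sum.inl (⟨q, mem_stmtSet_sub h (by
      classical
      simp only [stmts₁, Finset.mem_insert]; right; exact stmts₁_self)⟩,
        f v (o.bind fun a => toΓ k a.1))
  | Sum.inl (⟨.pop k f q, h⟩, v), o => Sum.inl (⟨q, mem_stmtSet_sub h (by
      classical
      simp only [stmts₁, Finset.mem_insert]; right; exact stmts₁_self)⟩,
        f v (o.bind fun a => toΓ k a.1))
  | Sum.inl (⟨.load f q, h⟩, v), _ => Sum.inl (⟨q, mem_stmtSet_sub h (by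
      classical
      simp only [stmts₁, Finset.mem_insert]; right; exact stmts₁_self)⟩, f v)
  | Sum.inl (⟨.branch f q₁ q₂, h⟩, v), _ =>
      if f v then Sum.inl (⟨q₁, mem_stmtSet_sub h (by
        classical
        simp only [stmts₁, Finset.mem_insert, Finset.mem_union]; right; left; exact stmts₁_self)⟩, v)
      else Sum.inl (⟨q₂, mem_stmtSet_sub h (by
        classical
        simp only [stmts₁, Finset.mem_insert, Finset.mem_union]; right; right
        exact stmts₁_self)⟩, v)
  | Sum.inl (⟨.goto f, h⟩, v), _ => Sum.inl (⟨m (f v), mem_stmtSet_main m _⟩, v)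
  | Sum.inl (⟨.halt, h⟩, v), _ => Sum.inr none
  | Sum.inr none, o => Sum.inr (some (by
      classical
      exact decide ((o.map fun a => a.1) = some ⟨k₁, good⟩)))
  | Sum.inr (some b), _ => Sum.inr (some b)

/-- the simulating machine -/
noncomputable def gm (good : Γ k₁) : GM (QT m) K (AT m k₀) where
  rd := rdT m k₁
  op := opT m k₀
  nx := nxT m k₀ k₁ good

variable {m k₀ k₁}

/-- the stacks of the simulating machine represent those of the given machine -/
def RelS (T : ∀ k, List (Γ k)) (S : K → List (AT m k₀)) : Prop :=
  ∀ k, (S k).map Subtype.val = (T k).map (Sigma.mk k)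

theorem RelS.head {T : ∀ k, List (Γ k)} {S : K → List (AT m k₀)} (h : RelS T S) (k : K) :
    ((S k).head?.bind fun a => toΓ k a.1) = (T k).head? := by
  have h1 := h k
  cases hS : S k with
  | nil =>
    rw [hS] at h1
    cases hT : T k with
    | nil => rfl
    | cons b l => rw [hT] at h1; simp at h1
  | cons a l =>
    rw [hS] at h1
    cases hT : T k with
    | nil => rw [hT] at h1; simp at h1
    | cons b l' =>
      rw [hT] at h1
      simp only [List.map_cons, List.cons.injEq] at h1
      simp only [List.head?_cons, Option.bind_some]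
      rw [h1.1, toΓ_mk]

theorem RelS.tail {T : ∀ k, List (Γ k)} {S : K → List (AT m k₀)} (h : RelS T S) (k : K) :
    RelS (Function.update T k (T k).tail) (Function.update S k (S k).tail) := by
  intro k'
  by_cases hk : k' = k
  · subst hk
    rw [Function.update_self, Function.update_self, List.map_tail, List.map_tail, h k']
  · rw [Function.update_of_ne hk, Function.update_of_ne hk, h k']

theorem RelS.push {T : ∀ k, List (Γ k)} {S : K → List (AT m k₀)} (h : RelS T S) (k : K) (g : Γ k)
    (a : AT m k₀) (ha : a.1 = ⟨k, g⟩) :
    RelS (Function.update T k (g :: T k)) (Function.update S k (a :: S k)) := by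
  intro k'
  by_cases hk : k' = k
  · subst hk
    rw [Function.update_self, Function.update_self, List.map_cons, List.map_cons, h k', ha]
  · rw [Function.update_of_ne hk, Function.update_of_ne hk, h k']

/-- simulation of the execution of a statement -/
theorem sim_stmt (good : Γ k₁) : ∀ (s : Stmt Γ Λ σ) (hs : s ∈ stmtSet m) (v : σ)
    (T : ∀ k, List (Γ k)) (S : K → List (AT m k₀)), RelS T S →
    ∃ n, 1 ≤ n ∧ n ≤ cost s ∧ ∃ S', (gm m k₀ k₁ good).step^[n] (Sum.inl (⟨s, hs⟩, v), S) =
      ((match (stepAux s v T).l with
        | some l => Sum.inl (⟨m l, mem_stmtSet_main m l⟩, (stepAux s v T).var)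
        | none => Sum.inr none), S') ∧ RelS (stepAux s v T).stk S' := by
  intro s
  induction s with
  | push k f q ih =>
    intro hs v T S h
    obtain ⟨n, h1, h2, S', h3, h4⟩ := ih (mem_stmtSet_sub hs (by
      classical
      simp only [stmts₁, Finset.mem_insert]; right; exact stmts₁_self)) v
      (Function.update T k (f v :: T k)) (Function.update S k (⟨⟨k, f v⟩, by
        classical
        unfold symSet
        rw [Finset.mem_union]
        left
        rw [Finset.mem_biUnion]
        refine ⟨_, hs, ?_⟩
        simp only [pushed, Finset.mem_image, Finset.mem_univ, true_and]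
        exact ⟨v, rfl⟩⟩ :: S k)) (h.push k (f v) _ rfl)
    refine ⟨n + 1, by omega, by simp only [cost]; omega, S', ?_, ?_⟩
    · rw [Function.iterate_succ_apply]
      exact h3
    · exact h4
  | peek k f q ih =>
    intro hs v T S h
    obtain ⟨n, h1, h2, S', h3, h4⟩ := ih (mem_stmtSet_sub hs (by
      classical
      simp only [stmts₁, Finset.mem_insert]; right; exact stmts₁_self)) (f v (T k).head?) T S h
    refine ⟨n + 1, by omega, by simp only [cost]; omega, S', ?_, ?_⟩
    · rw [Function.iterate_succ_apply]
      have e : (gm m k₀ k₁ good).step (Sum.inl (⟨Stmt.peek k f q, hs⟩, v), S) =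
          (Sum.inl (⟨q, mem_stmtSet_sub hs (by
            classical
            simp only [stmts₁, Finset.mem_insert]; right; exact stmts₁_self)⟩,
            f v (T k).head?), S) := by
        rw [← h.head k]
        simp only [GM.step, gm, rdT, opT, nxT, GOp.act, Function.update_eq_self]
      rw [e]
      exact h3
    · exact h4
  | pop k f q ih =>
    intro hs v T S h
    obtain ⟨n, h1, h2, S', h3, h4⟩ := ih (mem_stmtSet_sub hs (by
      classical
      simp only [stmts₁, Finset.mem_insert]; right; exact stmts₁_self)) (f v (T k).head?)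
      (Function.update T k (T k).tail) (Function.update S k (S k).tail) (h.tail k)
    refine ⟨n + 1, by omega, by simp only [cost]; omega, S', ?_, ?_⟩
    · rw [Function.iterate_succ_apply]
      have e : (gm m k₀ k₁ good).step (Sum.inl (⟨Stmt.pop k f q, hs⟩, v), S) =
          (Sum.inl (⟨q, mem_stmtSet_sub hs (by
            classical
            simp only [stmts₁, Finset.mem_insert]; right; exact stmts₁_self)⟩,
            f v (T k).head?), Function.update S k (S k).tail) := by
        rw [← h.head k]
        simp only [GM.step, gm, rdT, opT, nxT, GOp.act]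
      rw [e]
      exact h3
    · exact h4
  | load a q ih =>
    intro hs v T S h
    obtain ⟨n, h1, h2, S', h3, h4⟩ := ih (mem_stmtSet_sub hs (by
      classical
      simp only [stmts₁, Finset.mem_insert]; right; exact stmts₁_self)) (a v) T S h
    refine ⟨n + 1, by omega, by simp only [cost]; omega, S', ?_, ?_⟩
    · rw [Function.iterate_succ_apply]
      have e : (gm m k₀ k₁ good).step (Sum.inl (⟨Stmt.load a q, hs⟩, v), S) =
          (Sum.inl (⟨q, mem_stmtSet_sub hs (by
            classical
            simp only [stmts₁, Finset.mem_insert]; right; exact stmts₁_self)⟩, a v), S) := by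
        simp only [GM.step, gm, rdT, opT, nxT, GOp.act, Function.update_eq_self]
      rw [e]
      exact h3
    · exact h4
  | branch f q₁ q₂ ih₁ ih₂ =>
    intro hs v T S h
    cases hf : f v with
    | true =>
      obtain ⟨n, h1, h2, S', h3, h4⟩ := ih₁ (mem_stmtSet_sub hs (by
        classical
        simp only [stmts₁, Finset.mem_insert, Finset.mem_union]; right; left
        exact stmts₁_self)) v T S h
      have e0 : stepAux (Stmt.branch f q₁ q₂) v T = stepAux q₁ v T := by
        simp only [stepAux, hf, cond_true]
      refine ⟨n + 1, by omega, by simp only [cost]; omega, S', ?_, ?_⟩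
      · rw [Function.iterate_succ_apply, e0]
        have e : (gm m k₀ k₁ good).step (Sum.inl (⟨Stmt.branch f q₁ q₂, hs⟩, v), S) =
            (Sum.inl (⟨q₁, mem_stmtSet_sub hs (by
              classical
              simp only [stmts₁, Finset.mem_insert, Finset.mem_union]; right; left
              exact stmts₁_self)⟩, v), S) := by
          simp only [GM.step, gm, rdT, opT, nxT, GOp.act, Function.update_eq_self, hf, if_true]
        rw [e]
        exact h3
      · rw [e0]
        exact h4
    | false =>
      obtain ⟨n, h1, h2, S', h3, h4⟩ := ih₂ (mem_stmtSet_sub hs (by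
        classical
        simp only [stmts₁, Finset.mem_insert, Finset.mem_union]; right; right
        exact stmts₁_self)) v T S h
      have e0 : stepAux (Stmt.branch f q₁ q₂) v T = stepAux q₂ v T := by
        simp only [stepAux, hf, cond_false]
      refine ⟨n + 1, by omega, by simp only [cost]; omega, S', ?_, ?_⟩
      · rw [Function.iterate_succ_apply, e0]
        have e : (gm m k₀ k₁ good).step (Sum.inl (⟨Stmt.branch f q₁ q₂, hs⟩, v), S) =
            (Sum.inl (⟨q₂, mem_stmtSet_sub hs (by
              classical
              simp only [stmts₁, Finset.mem_insert, Finset.mem_union]; right; right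
              exact stmts₁_self)⟩, v), S) := by
          simp only [GM.step, gm, rdT, opT, nxT, GOp.act, Function.update_eq_self, hf,
            Bool.false_eq_true, if_false]
        rw [e]
        exact h3
      · rw [e0]
        exact h4
  | goto f =>
    intro hs v T S h
    refine ⟨1, le_refl _, le_refl _, S, ?_, ?_⟩
    · rw [Function.iterate_one]
      simp only [GM.step, gm, rdT, opT, nxT, GOp.act, Function.update_eq_self, stepAux]
    · exact h
  | halt =>
    intro hs v T S h
    refine ⟨1, le_refl _, le_refl _, S, ?_, ?_⟩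
    · rw [Function.iterate_one]
      simp only [GM.step, gm, rdT, opT, nxT, GOp.act, Function.update_eq_self, stepAux]
    · exact h

end

end Sim

end Pool.Agent.H72.NP
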