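import Mathlib
import Pool.Agent.H72.NP.Sim

set_option autoImplicit false

namespace Pool.Agent.H72.NP

open Turing Turing.TM2 StateTransition

namespace Sim

section

variable {K : Type} {Γ : K → Type} {Λ σ : Type}
variable [DecidableEq K] [Fintype K] [Fintype Λ] [Fintype σ]
variable {m : Λ → Stmt Γ Λ σ} {k₀ k₁ : K} [Fintype (Γ k₀)]

/-- state of the simulating machine that corresponds to a configuration -/
def stOf (c : Cfg Γ Λ σ) : QT m :=
  match c.l with
  | some l => Sum.inl (⟨m l, mem_stmtSet_main m l⟩, c.var)
  | none => Sum.inr none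

omit [DecidableEq K] [Fintype K] [Fintype Λ] [Fintype σ] in
theorem iterate_bind_none {α : Type} (f : α → Option α) (n : ℕ) :
    (flip bind f)^[n] (none : Option α) = none := by
  induction n with
  | zero => rfl
  | succ n ih => rw [Function.iterate_succ_apply]; exact ih

theorem sim_run (good : Γ k₁) {D : ℕ} (hD : ∀ l, cost (m l) ≤ D) :
    ∀ (n : ℕ) (c c' : Cfg Γ Λ σ) (S : K → List (AT m k₀)), RelS c.stk S →
      (flip bind (TM2.step m))^[n] (some c) = some c' →
      ∃ N ≤ D * n, ∃ S', (gm m k₀ k₁ good).step^[N] (stOf c, S) = (stOf c', S') ∧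
        RelS c'.stk S' := by
  intro n
  induction n with
  | zero =>
    intro c c' S h e
    have e' : c = c' := Option.some.inj e
    subst e'
    exact ⟨0, by simp, S, rfl, h⟩
  | succ n ih =>
    intro c c' S h e
    rw [Function.iterate_succ_apply] at e
    obtain ⟨l, v, T⟩ := c
    cases l with
    | none =>
      have : flip bind (TM2.step m) (some (⟨none, v, T⟩ : Cfg Γ Λ σ)) = none := rfl
      rw [this, iterate_bind_none] at e
      exact absurd e (by simp)
    | some l =>
      have : flip bind (TM2.step m) (some (⟨some l, v, T⟩ : Cfg Γ Λ σ)) =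
        some (stepAux (m l) v T) := rfl
      rw [this] at e
      obtain ⟨n₁, -, h2, S₁, h3, h4⟩ := sim_stmt good (m l) (mem_stmtSet_main m l) v T S h
      obtain ⟨N, hN, S', h5, h6⟩ := ih (stepAux (m l) v T) c' S₁ h4 e
      refine ⟨N + n₁, ?_, S', ?_, h6⟩
      · have := hD l
        rw [Nat.mul_succ]
        omega
      · rw [Function.iterate_add_apply]
        have e1 : (gm m k₀ k₁ good).step^[n₁]
            (stOf (⟨some l, v, T⟩ : Cfg Γ Λ σ), S) = (stOf (stepAux (m l) v T), S₁) := h3
        rw [e1]
        exact h5

end

/-- translation to a machine in normal form -/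
noncomputable def toSM {Q K A : Type} [Fintype Q] [Fintype K] [Fintype A] (G : GM Q K A)
    (start acc : Q) (inp : K) : SM where
  nq := Fintype.card Q
  nk := Fintype.card K
  na := Fintype.card A
  rd q := Fintype.equivFin K (G.rd ((Fintype.equivFin Q).symm q))
  op q := match G.op ((Fintype.equivFin Q).symm q) with
    | .keep => .keep
    | .push a => .push (Fintype.equivFin A a)
    | .pop => .pop
  nx q o := Fintype.equivFin Q (G.nx ((Fintype.equivFin Q).symm q) (o.map (Fintype.equivFin A).symm))
  start := Fintype.equivFin Q start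
  acc := Fintype.equivFin Q acc
  inp := Fintype.equivFin K inp

section

variable {Q K A : Type} [Fintype Q] [Fintype K] [Fintype A]
variable (G : GM Q K A) (start acc : Q) (inp : K)

/-- numbering of the states -/
noncomputable def eQ : Q ≃ Fin (toSM G start acc inp).nq := Fintype.equivFin Q

/-- numbering of the stacks -/
noncomputable def eK : K ≃ Fin (toSM G start acc inp).nk := Fintype.equivFin K

/-- numbering of the symbols -/
noncomputable def eA : A ≃ Fin (toSM G start acc inp).na := Fintype.equivFin A

/-- translation of operations -/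
noncomputable def trOp : GOp A → Op (toSM G start acc inp).na
  | .keep => .keep
  | .push a => .push (eA G start acc inp a)
  | .pop => .pop

theorem rd_eQ (q : Q) : (toSM G start acc inp).rd (eQ G start acc inp q) =
    eK G start acc inp (G.rd q) := by
  change Fintype.equivFin K (G.rd ((Fintype.equivFin Q).symm (Fintype.equivFin Q q))) =
    Fintype.equivFin K (G.rd q)
  rw [Equiv.symm_apply_apply]

theorem op_eQ (q : Q) : (toSM G start acc inp).op (eQ G start acc inp q) =
    trOp G start acc inp (G.op q) := by
  change (match G.op ((Fintype.equivFin Q).symm (Fintype.equivFin Q q)) with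
    | .keep => (Op.keep : Op (Fintype.card A))
    | .push a => .push (Fintype.equivFin A a)
    | .pop => .pop) = _
  rw [Equiv.symm_apply_apply]
  cases G.op q <;> rfl

theorem nx_eQ (q : Q) (o : Option A) : (toSM G start acc inp).nx (eQ G start acc inp q)
    (o.map (eA G start acc inp)) = eQ G start acc inp (G.nx q o) := by
  change Fintype.equivFin Q (G.nx ((Fintype.equivFin Q).symm (Fintype.equivFin Q q))
    ((o.map (Fintype.equivFin A)).map (Fintype.equivFin A).symm)) = Fintype.equivFin Q (G.nx q o)
  rw [Equiv.symm_apply_apply, Option.map_map]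
  have : (Fintype.equivFin A).symm ∘ (Fintype.equivFin A) = id := by
    funext a; simp
  rw [this, Option.map_id]
  rfl

theorem acc_eQ : (toSM G start acc inp).acc = eQ G start acc inp acc := rfl

theorem start_eQ : (toSM G start acc inp).start = eQ G start acc inp start := rfl

theorem inp_eK : (toSM G start acc inp).inp = eK G start acc inp inp := rfl

/-- translation of configurations -/
noncomputable def trC (c : Q × (K → List A)) : (toSM G start acc inp).Cf :=
  ⟨eQ G start acc inp c.1, fun k =>
    (c.2 ((eK G start acc inp).symm k)).map (eA G start acc inp)⟩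

theorem update_trC [DecidableEq K] (S : K → List A) (k : K) (l : List A) :
    (fun k' => (Function.update S k l ((eK G start acc inp).symm k')).map (eA G start acc inp)) =
    Function.update (fun k' => (S ((eK G start acc inp).symm k')).map (eA G start acc inp))
      (eK G start acc inp k) (l.map (eA G start acc inp)) := by
  funext k'
  by_cases hk : k' = eK G start acc inp k
  · subst hk
    simp
  · have hk' : (eK G start acc inp).symm k' ≠ k := by
      intro h
      apply hk
      rw [← h, Equiv.apply_symm_apply]
    rw [Function.update_of_ne hk, Function.update_of_ne hk']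

theorem step_trC [DecidableEq K] (c : Q × (K → List A)) :
    (toSM G start acc inp).step (trC G start acc inp c) = trC G start acc inp (G.step c) := by
  obtain ⟨q, S⟩ := c
  unfold SM.step
  simp only [trC, rd_eQ, op_eQ, Equiv.symm_apply_apply, GM.step]
  rw [update_trC]
  congr 1
  · rw [← nx_eQ]
    congr 1
    cases S (G.rd q) with
    | nil => rfl
    | cons a l => rfl
  · congr 1
    cases G.op q with
    | keep => rfl
    | push a => rfl
    | pop => simp only [trOp, Op.act, GOp.act, List.map_tail]

theorem iterate_trC [DecidableEq K] (c : Q × (K → List A)) (n : ℕ) :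
    (toSM G start acc inp).step^[n] (trC G start acc inp c) =
      trC G start acc inp (G.step^[n] c) := by
  induction n with
  | zero => rfl
  | succ n ih => rw [Function.iterate_succ_apply', Function.iterate_succ_apply', ih, step_trC]

theorem init_trC [DecidableEq K] (l : List A) :
    (toSM G start acc inp).init (l.map (eA G start acc inp)) =
      trC G start acc inp (start, Function.update (fun _ => []) inp l) := by
  unfold SM.init trC
  rw [update_trC]
  rfl

end

section

variable (tm : FinTM2)

instance : Fintype tm.K := tm.kFin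
instance : Fintype tm.Λ := tm.ΛFin
instance : Fintype tm.σ := tm.σFin
instance : Fintype (tm.Γ tm.k₀) := tm.Γk₀Fin

/-- the input symbols as symbols of the simulating machine -/
noncomputable def symIn (a : tm.Γ tm.k₀) : AT tm.m tm.k₀ := ⟨⟨tm.k₀, a⟩, by
  classical
  unfold symSet
  rw [Finset.mem_union]
  right
  simp only [Finset.mem_image, Finset.mem_univ, true_and]
  exact ⟨a, rfl⟩⟩

/-- the normal form machine that simulates `tm` and then tests whether the output is `[good]` -/
noncomputable def smOf (good : tm.Γ tm.k₁) : SM :=
  toSM (gm tm.m tm.k₀ tm.k₁ good) (stOf (initList tm [])) (Sum.inr (some true)) tm.k₀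

/-- input symbols of the normal form machine -/
noncomputable def symSM (good : tm.Γ tm.k₁) (a : tm.Γ tm.k₀) : Fin (smOf tm good).na :=
  eA (gm tm.m tm.k₀ tm.k₁ good) (stOf (initList tm [])) (Sum.inr (some true)) tm.k₀ (symIn tm a)

/-- bound for the cost of a step -/
noncomputable def costB : ℕ := ∑ l, cost (tm.m l)

theorem le_costB (l : tm.Λ) : cost (tm.m l) ≤ costB tm :=
  Finset.single_le_sum (f := fun l => cost (tm.m l)) (fun _ _ => Nat.zero_le _) (Finset.mem_univ l)

theorem relS_init (l : List (tm.Γ tm.k₀)) :
    RelS (initList tm l).stk (Function.update (fun _ => []) tm.k₀ (l.map (symIn tm))) := by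
  intro k
  by_cases hk : k = tm.k₀
  · subst hk
    rw [Function.update_self]
    simp only [initList, dite_true, List.map_map]
    rfl
  · rw [Function.update_of_ne hk]
    simp only [initList]
    rw [dif_neg hk]
    rfl

theorem halt_stk (s : List (tm.Γ tm.k₁)) : (haltList tm s).stk tm.k₁ = s := by
  simp [haltList]

theorem acc_fixed (good : tm.Γ tm.k₁) (b : Bool) (S : tm.K → List (AT tm.m tm.k₀)) (n : ℕ) :
    ((gm tm.m tm.k₀ tm.k₁ good).step^[n] (Sum.inr (some b), S)).1 = Sum.inr (some b) := by
  have : ∀ n, (gm tm.m tm.k₀ tm.k₁ good).step^[n] (Sum.inr (some b), S) =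
      (Sum.inr (some b), S) := by
    intro n
    induction n with
    | zero => rfl
    | succ n ih =>
      rw [Function.iterate_succ_apply', ih]
      simp only [GM.step, gm, rdT, opT, nxT, GOp.act, Function.update_eq_self]
  rw [this n]

/-- correctness of the simulation -/
theorem smOf_run (good : tm.Γ tm.k₁) (l : List (tm.Γ tm.k₀)) (g : tm.Γ tm.k₁) (n : ℕ)
    (h : TM2OutputsInTime tm l (some [g]) n) (T : ℕ) (hT : costB tm * n + 1 ≤ T) :
    ((smOf tm good).run (l.map (symSM tm good)) T).q = (smOf tm good).acc ↔ g = good := by
  classical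
  obtain ⟨⟨s, hs⟩, hsn⟩ := h
  obtain ⟨N, hN, S', h1, h2⟩ := sim_run (k₀ := tm.k₀) good (le_costB tm) s (initList tm l)
    (haltList tm [g]) _ (relS_init tm l) hs
  have hNn : N ≤ costB tm * n := hN.trans (Nat.mul_le_mul_left _ hsn)
  -- the run of the simulating machine
  have e1 : (smOf tm good).run (l.map (symSM tm good)) T =
      trC _ _ _ _ ((gm tm.m tm.k₀ tm.k₁ good).step^[T]
        (stOf (initList tm []), Function.update (fun _ => []) tm.k₀ (l.map (symIn tm)))) := by
    have e2 : l.map (symSM tm good) = (l.map (symIn tm)).map
        (eA (gm tm.m tm.k₀ tm.k₁ good) (stOf (initList tm [])) (Sum.inr (some true)) tm.k₀) := by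
      rw [List.map_map]; rfl
    unfold SM.run
    rw [e2]
    unfold smOf
    rw [init_trC, iterate_trC]
  rw [e1]
  have h1' : (gm tm.m tm.k₀ tm.k₁ good).step^[N]
      (stOf (initList tm []), Function.update (fun _ => []) tm.k₀ (l.map (symIn tm))) =
      (stOf (haltList tm [g]), S') := h1
  obtain ⟨r, rfl⟩ : ∃ r, T = r + (1 + N) := ⟨T - (1 + N), by omega⟩
  rw [Function.iterate_add_apply, Function.iterate_add_apply, h1', Function.iterate_one]
  have e4 : (gm tm.m tm.k₀ tm.k₁ good).step (stOf (haltList tm [g]), S') =
      (Sum.inr (some (decide (g = good))), S') := by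
    have h3 := h2 tm.k₁
    rw [halt_stk] at h3
    have h4 : (S' tm.k₁).head?.map (fun a => a.1) = some ⟨tm.k₁, g⟩ := by
      cases hS : S' tm.k₁ with
      | nil => rw [hS] at h3; simp at h3
      | cons a l' =>
        rw [hS] at h3
        simp only [List.map_cons, List.map_nil, List.cons.injEq] at h3
        simp [h3.1]
    have e5 : (stOf (haltList tm [g]) : QT tm.m) = Sum.inr none := rfl
    rw [e5]
    simp only [GM.step, gm, rdT, opT, nxT, GOp.act, Function.update_eq_self, h4]
    congr 4
    apply propext
    simp
  rw [e4]
  simp only [trC, smOf]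
  rw [acc_fixed, acc_eQ]
  simp only [EmbeddingLike.apply_eq_iff_eq, Sum.inr.injEq, Option.some.injEq,
    decide_eq_true_eq]

end

end Sim

end Pool.Agent.H72.NP
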