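import Mathlib
import Pool.Agent.H72.NP.Defs
import Pool.Agent.H72.NP.Sim2

set_option autoImplicit false

namespace Pool.Agent.H72.NP

open Turing Computability

theorem eval_mono (p : Polynomial ℕ) {a b : ℕ} (h : a ≤ b) : p.eval a ≤ p.eval b := by
  rw [Polynomial.eval_eq_sum_range, Polynomial.eval_eq_sum_range]
  exact Finset.sum_le_sum fun i _ => Nat.mul_le_mul_left _ (Nat.pow_le_pow_left h i)

/-- every language in NP is described by tableau formulas of polynomial dimensions -/
theorem exists_tableau {L : List Bool → Prop} (h : InNP (id : List Bool → List Bool) L) :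
    ∃ (M : SM) (ex ew : Bool → Fin M.na) (p q : Polynomial ℕ), ∀ x : List Bool,
      L x ↔ (M.tableau ex ew x (q.eval x.length) (p.eval x.length)
        (p.eval x.length + 1 + x.length + q.eval x.length + 1)).Sat := by
  obtain ⟨V, p, ⟨hV⟩, hL⟩ := h
  obtain ⟨⟨tm, ia, oa⟩, time, hout⟩ := hV
  set good : tm.Γ tm.k₁ := oa.symm true with hgood
  refine ⟨Sim.smOf tm good, fun b => Sim.symSM tm good (ia.symm (Sum.inl b)),
    fun b => Sim.symSM tm good (ia.symm (Sum.inr b)), p,
    Polynomial.C (Sim.costB tm) * time.comp (Polynomial.X + p) + 1, fun x => ?_⟩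
  rw [SM.tableau_sat_iff (by omega), hL]
  simp only [id]
  apply exists_congr
  intro w
  constructor
  · rintro ⟨h1, h2⟩
    refine ⟨h1, ?_⟩
    have h3 := hout (x, w)
    have e1 : List.map oa.invFun (encodeBool (V (x, w))) = [oa.symm (V (x, w))] := rfl
    rw [e1] at h3
    have h4 := Sim.smOf_run tm good _ _ _ h3
      ((Polynomial.C (Sim.costB tm) * time.comp (Polynomial.X + p) + 1).eval x.length) (by
        have : (pairEnc id (x, w)).length = x.length + w.length := by simp [pairEnc]
        rw [this]
        simp only [Polynomial.eval_add, Polynomial.eval_mul, Polynomial.eval_C,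
          Polynomial.eval_comp, Polynomial.eval_X, Polynomial.eval_one]
        exact Nat.add_le_add_right (Nat.mul_le_mul_left _ (eval_mono time (by omega))) 1)
    have e2 : List.map (Sim.symSM tm good) (List.map ia.invFun (pairEnc id (x, w))) =
        List.map (fun b => Sim.symSM tm good (ia.symm (Sum.inl b))) x ++
        List.map (fun b => Sim.symSM tm good (ia.symm (Sum.inr b))) w := by
      simp only [pairEnc, id, List.map_append, List.map_map]
      rfl
    rw [e2] at h4
    rw [h4, h2]
  · rintro ⟨h1, h2⟩
    refine ⟨h1, ?_⟩
    have h3 := hout (x, w)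
    have e1 : List.map oa.invFun (encodeBool (V (x, w))) = [oa.symm (V (x, w))] := rfl
    rw [e1] at h3
    have h4 := Sim.smOf_run tm good _ _ _ h3
      ((Polynomial.C (Sim.costB tm) * time.comp (Polynomial.X + p) + 1).eval x.length) (by
        have : (pairEnc id (x, w)).length = x.length + w.length := by simp [pairEnc]
        rw [this]
        simp only [Polynomial.eval_add, Polynomial.eval_mul, Polynomial.eval_C,
          Polynomial.eval_comp, Polynomial.eval_X, Polynomial.eval_one]
        exact Nat.add_le_add_right (Nat.mul_le_mul_left _ (eval_mono time (by omega))) 1)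
    have e2 : List.map (Sim.symSM tm good) (List.map ia.invFun (pairEnc id (x, w))) =
        List.map (fun b => Sim.symSM tm good (ia.symm (Sum.inl b))) x ++
        List.map (fun b => Sim.symSM tm good (ia.symm (Sum.inr b))) w := by
      simp only [pairEnc, id, List.map_append, List.map_map]
      rfl
    rw [e2] at h4
    rw [h4, hgood] at h2
    exact oa.symm.injective h2

end Pool.Agent.H72.NP
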