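import Mathlib
import Pool.Agent.H72.NP.Verifier
import Pool.Agent.H72.NP.Tableau4
import Pool.Agent.H80.Poly.More

set_option autoImplicit false

/-!
# The tableau formulas are computable in polynomial time
-/

namespace Pool.Agent.H72.NP

open Pool.Agent.H80.Poly

variable {Γ : Type} [BEnc Γ] {β γ δ : Type} [BEnc β] [BEnc γ]

/-- polynomial-time computable with polynomially bounded values -/
def PU (n : Γ → ℕ) : Prop := PolyTime n ∧ ∃ b, PB b ∧ ∀ a, n a ≤ b (size a)

theorem PU.poly {n : Γ → ℕ} (h : PU n) : PolyTime n := h.1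

theorem PU.bd {n : Γ → ℕ} (h : PU n) : ∃ b, PB b ∧ ∀ a, n a ≤ b (size a) := h.2

theorem PU.const (c : ℕ) : PU (fun _ : Γ => c) :=
  ⟨PolyTime.const c, fun _ => c, PB.const c, fun _ => le_rfl⟩

theorem PU.add {m n : Γ → ℕ} (hm : PU m) (hn : PU n) : PU (fun a => m a + n a) := by
  obtain ⟨b, hb, h⟩ := hm.2
  obtain ⟨c, hc, h'⟩ := hn.2
  exact ⟨hm.1.add hn.1, fun n => b n + c n, hb.add hc, fun a => Nat.add_le_add (h a) (h' a)⟩

theorem PU.mul {m n : Γ → ℕ} (hm : PU m) (hn : PU n) : PU (fun a => m a * n a) := by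
  obtain ⟨b, hb, h⟩ := hm.2
  obtain ⟨c, hc, h'⟩ := hn.2
  exact ⟨hm.1.mul hn.1, fun n => b n * c n, hb.mul hc, fun a => Nat.mul_le_mul (h a) (h' a)⟩

theorem PU.of_le {m n : Γ → ℕ} (hm : PolyTime m) (hn : PU n) (h : ∀ a, m a ≤ n a) : PU m := by
  obtain ⟨b, hb, h'⟩ := hn.2
  exact ⟨hm, b, hb, fun a => (h a).trans (h' a)⟩

theorem PU.sub {m n : Γ → ℕ} (hm : PU m) (hn : PolyTime n) : PU (fun a => m a - n a) :=
  PU.of_le (hm.1.sub hn) hm (fun _ => Nat.sub_le _ _)

theorem PU.eval (p : Polynomial ℕ) {n : Γ → ℕ} (hn : PU n) : PU (fun a => p.eval (n a)) := by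
  obtain ⟨b, hb, h⟩ := hn.2
  exact ⟨PolyTime.natEval p hn.1, fun n => p.eval (b n), PB.evalComp p hb,
    fun a => Pool.Agent.H80.Poly.eval_mono p (h a)⟩

theorem PU.length {l : Γ → List β} (hl : PolyTime l) : PU (fun a => (l a).length) := by
  obtain ⟨b, hb, h⟩ := hl.size_le
  exact ⟨PolyTime.length hl, b, hb, fun a => (length_le_size _).trans (h a)⟩

theorem PU.comp {n : β → ℕ} {f : Γ → β} (hn : PU n) (hf : PolyTime f) : PU (fun a => n (f a)) := by
  obtain ⟨b, ⟨p, hp⟩, h⟩ := hn.2
  obtain ⟨c, hc, h'⟩ := hf.size_le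
  exact ⟨hn.1.comp hf, fun n => p.eval (c n), PB.evalComp p hc,
    fun a => (h _).trans ((hp _).trans (Pool.Agent.H80.Poly.eval_mono p (h' a)))⟩

theorem PU.range {n : Γ → ℕ} (hn : PU n) : PolyTime (fun a => List.range (n a)) :=
  PolyTime.range hn.1 hn.2

/-- Cantor style pairing of natural numbers -/
theorem polyTime_natPair {f g : Γ → ℕ} (hf : PolyTime f) (hg : PolyTime g) :
    PolyTime (fun a => Nat.pair (f a) (g a)) := by
  have h := PolyTime.ite (c := fun a => f a < g a) (PolyTime.lt hf hg)
    ((hg.mul hg).add hf) (((hf.mul hf).add hf).add hg)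
  exact h.congr (fun a => by simp only [Nat.pair])

theorem polyTime_vst {t q : Γ → ℕ} (ht : PolyTime t) (hq : PolyTime q) :
    PolyTime (fun a => vst (t a) (q a)) :=
  polyTime_natPair (PolyTime.const 0) (polyTime_natPair ht hq)

theorem polyTime_vcell {t k i b : Γ → ℕ} (ht : PolyTime t) (hk : PolyTime k) (hi : PolyTime i)
    (hb : PolyTime b) : PolyTime (fun a => vcell (t a) (k a) (i a) (b a)) :=
  polyTime_natPair (PolyTime.const 1) (polyTime_natPair ht (polyTime_natPair hk
    (polyTime_natPair hi hb)))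

/-- concatenation over a fixed list -/
theorem polyTime_flatMap_fixed (l : List δ) (g : δ → Γ → List β) (h : ∀ d ∈ l, PolyTime (g d)) :
    PolyTime (fun a => l.flatMap (fun d => g d a)) := by
  induction l with
  | nil => exact PolyTime.const []
  | cons d l ih =>
    exact ((h d List.mem_cons_self).append (ih (fun e he => h e (List.mem_cons_of_mem _ he)))).congr
      (fun a => by rw [List.flatMap_cons])

/-- map over a fixed list -/
theorem polyTime_map_fixed (l : List δ) (g : δ → Γ → β) (h : ∀ d ∈ l, PolyTime (g d)) :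
    PolyTime (fun a => l.map (fun d => g d a)) := by
  induction l with
  | nil => exact PolyTime.const []
  | cons d l ih =>
    exact ((h d List.mem_cons_self).cons (ih (fun e he => h e (List.mem_cons_of_mem _ he)))).congr
      (fun a => by rw [List.map_cons])

theorem polyTime_lit (s : Bool) {n : Γ → ℕ} (hn : PolyTime n) :
    PolyTime (fun a => ((s, n a) : Lit)) := (PolyTime.const s).pair hn

theorem polyTime_single {f : Γ → β} (hf : PolyTime f) : PolyTime (fun a => [f a]) :=
  hf.cons (PolyTime.const [])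

namespace SM

variable (M : SM)

theorem polyTime_cInit {P S : Γ → ℕ} (hP : PolyTime P) (hS : PU S) :
    PolyTime (fun a => M.cInit (P a) (S a)) := by
  unfold cInit
  refine (PolyTime.const _).cons ?_
  refine polyTime_flatMap_fixed _ (fun (k : Fin M.nk) (a : Γ) => if k = M.inp then [] else
        (List.range (S a+1)).map fun i => [(true, vcell 0 k.val i (if i ≤ P a then 0 else 1))])
        (fun k _ => ?_)
  by_cases hk : k = M.inp
  · exact (PolyTime.const []).congr (fun a => by simp only [if_pos hk])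
  · have hw : PolyTime (fun w : Γ × ℕ => w) := PolyTime.id
    have h := (hS.add (PU.const 1)).range.map (g := fun w : Γ × ℕ =>
      [((true, vcell 0 k.val w.2 (if w.2 ≤ P w.1 then 0 else 1)) : Lit)])
      (polyTime_single (polyTime_lit _ (polyTime_vcell (PolyTime.const _) (PolyTime.const _) hw.snd
        (PolyTime.ite (PolyTime.le hw.snd (hP.comp hw.fst)) (PolyTime.const _)
          (PolyTime.const _)))))
    exact h.congr (fun a => by simp only [if_neg hk])

theorem polyTime_cGuess (ew : Bool → Fin M.na) {P : Γ → ℕ} (hP : PU P) :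
    PolyTime (fun a => M.cGuess ew (P a)) := by
  unfold cGuess
  have hw : PolyTime (fun w : Γ × ℕ => w) := PolyTime.id
  refine hP.range.flatMap (g := fun w : Γ × ℕ =>
    [[(true, vcell 0 M.inp.val (w.2+1) 0), (true, vcell 0 M.inp.val (w.2+1) ((ew false).val + 2)),
      (true, vcell 0 M.inp.val (w.2+1) ((ew true).val + 2))],
     [(false, vcell 0 M.inp.val (w.2+1) 0), (true, vcell 0 M.inp.val w.2 0)]]) ?_
  have hi := hw.snd
  have hi1 := hi.succ
  have v : ∀ (b : ℕ) , PolyTime (fun w : Γ × ℕ => vcell 0 M.inp.val (w.2+1) b) := fun b =>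
    polyTime_vcell (PolyTime.const _) (PolyTime.const _) hi1 (PolyTime.const b)
  have v' : PolyTime (fun w : Γ × ℕ => vcell 0 M.inp.val w.2 0) :=
    polyTime_vcell (PolyTime.const _) (PolyTime.const _) hi (PolyTime.const 0)
  refine PolyTime.cons ?_ (PolyTime.cons ?_ (PolyTime.const []))
  · exact (polyTime_lit _ (v _)).cons ((polyTime_lit _ (v _)).cons (polyTime_single
      (polyTime_lit _ (v _))))
  · exact (polyTime_lit _ (v _)).cons (polyTime_single (polyTime_lit _ v'))

theorem polyTime_cInput (ex : Bool → Fin M.na) {x : Γ → List Bool} {P S : Γ → ℕ}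
    (hx : PolyTime x) (hP : PU P) (hS : PU S) :
    PolyTime (fun a => M.cInput ex (x a) (P a) (S a)) := by
  unfold cInput
  have hw : PolyTime (fun w : Γ × (Bool × ℕ) => w) := PolyTime.id
  have hw' : PolyTime (fun w : Γ × ℕ => w) := PolyTime.id
  refine PolyTime.append ?_ ?_
  · exact hx.reverse.zipIdx.map (g := fun w : Γ × (Bool × ℕ) =>
      [((true, vcell 0 M.inp.val (P w.1 + 1 + w.2.2) ((ex w.2.1).val + 2)) : Lit)])
      (polyTime_single (polyTime_lit _ (polyTime_vcell (PolyTime.const _) (PolyTime.const _)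
        (((hP.1.comp hw.fst).succ).add hw.snd.snd)
        ((PolyTime.boolFun (fun b : Bool => (ex b).val + 2)).comp hw.snd.fst))))
  · exact (hS.sub (hP.1.add (PolyTime.length hx))).range.map (g := fun w : Γ × ℕ =>
      [((true, vcell 0 M.inp.val (P w.1 + 1 + (x w.1).length + w.2) 1) : Lit)])
      (polyTime_single (polyTime_lit _ (polyTime_vcell (PolyTime.const _) (PolyTime.const _)
        ((((hP.1.comp hw'.fst).succ).add ((PolyTime.length hx).comp hw'.fst)).add hw'.snd)
        (PolyTime.const 1))))

theorem polyTime_cBound {S t : Γ → ℕ} (hS : PolyTime S) (ht : PolyTime t) :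
    PolyTime (fun a => M.cBound (S a) (t a)) := by
  unfold cBound
  refine polyTime_flatMap_fixed _ (fun (k : Fin M.nk) (a : Γ) =>
    [[(true, vcell (t a) k.val 0 0)], [(true, vcell (t a) k.val (S a) 1)]]) (fun k _ => ?_)
  refine PolyTime.cons ?_ (PolyTime.cons ?_ (PolyTime.const []))
  · exact polyTime_single (polyTime_lit _ (polyTime_vcell ht (PolyTime.const _) (PolyTime.const _)
      (PolyTime.const _)))
  · exact polyTime_single (polyTime_lit _ (polyTime_vcell ht (PolyTime.const _) hS
      (PolyTime.const _)))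

theorem polyTime_cState {t i : Γ → ℕ} (ht : PolyTime t) (hi : PolyTime i) :
    PolyTime (fun a => M.cState (t a) (i a)) := by
  unfold cState
  refine polyTime_flatMap_fixed _ (fun (q : Fin M.nq) (a : Γ) => M.tops.map fun o =>
    [(false, vst (t a) q.val), (false, vcell (t a) (M.rd q).val (i a) (topCode o)),
      (false, vcell (t a) (M.rd q).val ((i a)+1) 1), (true, vst ((t a)+1) (M.nx q o).val)])
      (fun q _ => ?_)
  refine polyTime_map_fixed _ (fun o (a : Γ) =>
    [((false, vst (t a) q.val) : Lit), (false, vcell (t a) (M.rd q).val (i a) (topCode o)),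
      (false, vcell (t a) (M.rd q).val ((i a)+1) 1), (true, vst ((t a)+1) (M.nx q o).val)])
      (fun o _ => ?_)
  refine (polyTime_lit _ (polyTime_vst ht (PolyTime.const _))).cons ?_
  refine (polyTime_lit _ (polyTime_vcell ht (PolyTime.const _) hi (PolyTime.const _))).cons ?_
  refine (polyTime_lit _ (polyTime_vcell ht (PolyTime.const _) hi.succ (PolyTime.const _))).cons ?_
  exact polyTime_single (polyTime_lit _ (polyTime_vst ht.succ (PolyTime.const _)))

theorem polyTime_cCell {t i : Γ → ℕ} (ht : PolyTime t) (hi : PolyTime i) :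
    PolyTime (fun a => M.cCell (t a) (i a)) := by
  unfold cCell
  refine polyTime_flatMap_fixed _ _ (fun q _ => ?_)
  refine polyTime_flatMap_fixed _ _ (fun k _ => ?_)
  refine polyTime_flatMap_fixed _ _ (fun l _ => ?_)
  refine polyTime_flatMap_fixed _ _ (fun c _ => ?_)
  refine polyTime_map_fixed _ _ (fun r _ => ?_)
  refine (polyTime_lit _ (polyTime_vst ht (PolyTime.const _))).cons ?_
  refine (polyTime_lit _ (polyTime_vcell ht (PolyTime.const _) hi (PolyTime.const _))).cons ?_
  refine (polyTime_lit _ (polyTime_vcell ht (PolyTime.const _) hi.succ (PolyTime.const _))).cons ?_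
  refine (polyTime_lit _ (polyTime_vcell ht (PolyTime.const _) (hi.succ.succ) (PolyTime.const _))).cons ?_
  exact polyTime_single (polyTime_lit _ (polyTime_vcell ht.succ (PolyTime.const _) hi.succ
    (PolyTime.const _)))

theorem polyTime_cAcc {T : Γ → ℕ} (hT : PolyTime T) : PolyTime (fun a => M.cAcc (T a)) := by
  unfold cAcc
  refine polyTime_flatMap_fixed _ (fun (q : Fin M.nq) (a : Γ) =>
    if q = M.acc then [] else [[(false, vst (T a) q.val)]]) (fun q _ => ?_)
  by_cases hq : q = M.acc
  · exact (PolyTime.const []).congr (fun a => by simp only [if_pos hq])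
  · exact (polyTime_single (polyTime_single (polyTime_lit false (polyTime_vst hT
      (PolyTime.const q.val))))).congr (fun a => by simp only [if_neg hq])

/-- the tableau formula is computable in polynomial time -/
theorem polyTime_tableau (ex ew : Bool → Fin M.na) {x : Γ → List Bool} {T P S : Γ → ℕ}
    (hx : PolyTime x) (hT : PU T) (hP : PU P) (hS : PU S) :
    PolyTime (fun a => M.tableau ex ew (x a) (T a) (P a) (S a)) := by
  have hw : PolyTime (fun w : Γ × ℕ => w) := PolyTime.id
  have hw' : PolyTime (fun w : (Γ × ℕ) × ℕ => w) := PolyTime.id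
  unfold tableau
  refine PolyTime.append (PolyTime.append (PolyTime.append (PolyTime.append (PolyTime.append
    (PolyTime.append ?_ ?_) ?_) ?_) ?_) ?_) ?_
  · exact M.polyTime_cInit hP.1 hS
  · exact M.polyTime_cGuess ew hP
  · exact M.polyTime_cInput ex hx hP hS
  · exact (hT.add (PU.const 1)).range.flatMap (g := fun w : Γ × ℕ => M.cBound (S w.1) w.2)
      (M.polyTime_cBound (hS.1.comp hw.fst) hw.snd)
  · exact hT.range.flatMap (g := fun w : Γ × ℕ => (List.range (S w.1)).flatMap fun i =>
      M.cState w.2 i) ((hS.comp hw.fst).range.flatMap (g := fun w : (Γ × ℕ) × ℕ =>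
        M.cState w.1.2 w.2) (M.polyTime_cState hw'.fst.snd hw'.snd))
  · exact hT.range.flatMap (g := fun w : Γ × ℕ => (List.range (S w.1 - 1)).flatMap fun i =>
      M.cCell w.2 i) (((hS.comp hw.fst).sub (PolyTime.const 1)).range.flatMap
        (g := fun w : (Γ × ℕ) × ℕ => M.cCell w.1.2 w.2) (M.polyTime_cCell hw'.fst.snd hw'.snd))
  · exact M.polyTime_cAcc hT.1

end SM

/-- Cook's theorem: every language in NP reduces in polynomial time to the satisfiability of formulas
in conjunctive normal form. -/
theorem exists_reduction_sat {L : List Bool → Prop} (h : InNP (id : List Bool → List Bool) L) :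
    ∃ f : Str → Cnf, PolyTime f ∧ ∀ x : List Bool, L x ↔ (f x).Sat := by
  obtain ⟨M, ex, ew, p, q, hM⟩ := exists_tableau h
  have hx : PolyTime (fun x : Str => strToList x) := PolyTime.strToList'
  have hl : PU (fun x : Str => (strToList x).length) := PU.length hx
  refine ⟨fun x => M.tableau ex ew (strToList x) (q.eval (strToList x).length)
    (p.eval (strToList x).length) (p.eval (strToList x).length + 1 + (strToList x).length +
      q.eval (strToList x).length + 1), ?_, fun x => hM x⟩
  exact M.polyTime_tableau ex ew hx (hl.eval q) (hl.eval p)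
    (((((hl.eval p).add (PU.const 1)).add hl).add (hl.eval q)).add (PU.const 1))

end Pool.Agent.H72.NP
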