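import Mathlib
import Pool.Agent.H72.NP.Cnf

set_option autoImplicit false

namespace Pool.Agent.H72.NP

/-- a clause with three literals; a literal is a variable and a sign -/
abbrev Clause3 := (ℕ × Bool) × (ℕ × Bool) × (ℕ × Bool)

/-- satisfiability of a conjunction of clauses with exactly three literals each (repetitions allowed) -/
def Sat3 (ψ : List Clause3) : Prop :=
  ∃ v : ℕ → Bool, ∀ c ∈ ψ, v c.1.1 = c.1.2 ∨ v c.2.1.1 = c.2.1.2 ∨ v c.2.2.1 = c.2.2.2

namespace ThreeSat

/-- original variables -/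
def X (v : ℕ) : ℕ := Nat.pair 0 v

/-- auxiliary variables -/
def Y (j i : ℕ) : ℕ := Nat.pair 1 (Nat.pair j i)

theorem Y_inj {j i j' i' : ℕ} (h : Y j i = Y j' i') : j = j' ∧ i = i' := by
  simp only [Y, Nat.pair_eq_pair] at h
  exact h.2

theorem X_inj {v v' : ℕ} (h : X v = X v') : v = v' := by
  simp only [X, Nat.pair_eq_pair] at h
  exact h.2

theorem X_ne_Y {v j i : ℕ} : X v ≠ Y j i := by
  intro h
  simp only [X, Y, Nat.pair_eq_pair] at h
  omega

/-- unit clause as a clause with three literals -/
def unit3 (l : ℕ × Bool) : Clause3 := (l, l, l)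

/-- the clauses that replace the `j`-th clause `c` -/
def chain (j : ℕ) (c : List Lit) : List Clause3 :=
  unit3 (Y j 0, true) :: unit3 (Y j c.length, false) ::
    c.zipIdx.map fun q => ((Y j q.2, false), (X q.1.2, q.1.1), (Y j (q.2 + 1), true))

/-- the formula with three literals per clause -/
def split (φ : Cnf) : List Clause3 :=
  φ.zipIdx.flatMap fun p => chain p.2 p.1

theorem sat_of_split {φ : Cnf} (h : Sat3 (split φ)) : φ.Sat := by
  obtain ⟨v, hv⟩ := h
  refine ⟨fun n => v (X n), fun e hc => ?_⟩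
  obtain ⟨j, hj⟩ : ∃ j, φ[j]? = some e := List.mem_iff_getElem?.1 hc
  have hmem : ∀ d ∈ chain j e, d ∈ split φ := fun d hd => by
    unfold split
    rw [List.mem_flatMap]
    exact ⟨(e, j), by rw [List.mem_zipIdx_iff_getElem?]; exact hj, hd⟩
  by_contra hcon
  push Not at hcon
  have key : ∀ i, i ≤ e.length → v (Y j i) = true := by
    intro i
    induction i with
    | zero =>
      intro _
      have := hv (unit3 (Y j 0, true)) (hmem _ (by unfold chain; simp))
      simpa [unit3] using this
    | succ i ih =>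
      intro hi
      have h1 := ih (by omega)
      have h2 : i < e.length := by omega
      have := hv ((Y j i, false), (X (e[i]).2, (e[i]).1), (Y j (i + 1), true)) (hmem _ (by
        unfold chain
        refine List.mem_cons_of_mem _ (List.mem_cons_of_mem _ ?_)
        rw [List.mem_map]
        refine ⟨(e[i], i), ?_, rfl⟩
        rw [List.mem_zipIdx_iff_getElem?]
        simp [List.getElem?_eq_getElem h2]))
      simp only at this
      rcases this with h3 | h3 | h3
      · rw [h1] at h3; simp at h3
      · exact absurd h3 (hcon _ (List.getElem_mem h2))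
      · exact h3
  have h1 := key e.length le_rfl
  have h2 := hv (unit3 (Y j e.length, false)) (hmem _ (by unfold chain; simp))
  simp only [unit3, or_self] at h2
  rw [h1] at h2
  simp at h2

open Classical in
/-- extension of an assignment to the auxiliary variables -/
noncomputable def ext (φ : Cnf) (v : ℕ → Bool) (n : ℕ) : Bool :=
  decide ((∃ u, n = X u ∧ v u = true) ∨
    ∃ j i, n = Y j i ∧ ∀ e, φ[j]? = some e → ∀ i' < i, ∀ l, e[i']? = some l → v l.2 ≠ l.1)

open Classical in
theorem ext_X (φ : Cnf) (v : ℕ → Bool) (u : ℕ) : ext φ v (X u) = v u := by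
  unfold ext
  cases h : v u with
  | true =>
    rw [decide_eq_true_iff]
    exact Or.inl ⟨u, rfl, h⟩
  | false =>
    rw [decide_eq_false_iff_not]
    rintro (⟨u', h1, h2⟩ | ⟨j, i, h1, -⟩)
    · rw [← X_inj h1, h] at h2; simp at h2
    · exact X_ne_Y h1

open Classical in
theorem ext_Y (φ : Cnf) (v : ℕ → Bool) (j i : ℕ) : ext φ v (Y j i) = true ↔
    ∀ e, φ[j]? = some e → ∀ i' < i, ∀ l, e[i']? = some l → v l.2 ≠ l.1 := by
  unfold ext
  rw [decide_eq_true_iff]
  constructor
  · rintro (⟨u, h1, -⟩ | ⟨j', i', h1, h2⟩)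
    · exact absurd h1.symm X_ne_Y
    · obtain ⟨rfl, rfl⟩ := Y_inj h1
      exact h2
  · intro h
    exact Or.inr ⟨j, i, rfl, h⟩

theorem split_of_sat {φ : Cnf} (h : φ.Sat) : Sat3 (split φ) := by
  obtain ⟨v, hv⟩ := h
  refine ⟨ext φ v, fun d hd => ?_⟩
  unfold split at hd
  rw [List.mem_flatMap] at hd
  obtain ⟨⟨c, j⟩, hcj, hd⟩ := hd
  rw [List.mem_zipIdx_iff_getElem?] at hcj
  simp only at hcj hd
  unfold chain at hd
  rw [List.mem_cons, List.mem_cons, List.mem_map] at hd
  rcases hd with rfl | rfl | ⟨⟨l, i⟩, hl, rfl⟩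
  · left
    simp only [unit3]
    rw [ext_Y]
    intro c' _ i' hi'
    omega
  · left
    simp only [unit3]
    rw [← Bool.not_eq_true, ext_Y]
    intro hall
    obtain ⟨l, hl, hvl⟩ := hv c (List.mem_iff_getElem?.2 ⟨j, hcj⟩)
    obtain ⟨i, hi⟩ := List.mem_iff_getElem?.1 hl
    have hi' : i < c.length := (List.getElem?_eq_some_iff.1 hi).1
    exact hall c hcj i hi' l hi hvl
  · rw [List.mem_zipIdx_iff_getElem?] at hl
    simp only at hl
    simp only
    by_cases h1 : ext φ v (Y j i) = true
    · by_cases h2 : v l.2 = l.1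
      · right; left
        rw [ext_X, h2]
      · right; right
        rw [ext_Y] at h1 ⊢
        intro c' hc' i' hi' l' hl'
        rcases Nat.lt_succ_iff_lt_or_eq.1 hi' with h3 | h3
        · exact h1 c' hc' i' h3 l' hl'
        · subst h3
          rw [hcj] at hc'
          obtain rfl := Option.some.inj hc'
          rw [hl] at hl'
          obtain rfl := Option.some.inj hl'
          exact h2
    · left
      simpa using h1

/-- the split formula is equisatisfiable -/
theorem sat3_split (φ : Cnf) : Sat3 (split φ) ↔ φ.Sat := ⟨sat_of_split, split_of_sat⟩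

/-- the list of all variables -/
def vars (ψ : List Clause3) : List ℕ := ψ.flatMap fun c => [c.1.1, c.2.1.1, c.2.2.1]

/-- renaming of variables in a clause -/
def renClause (ρ : ℕ → ℕ) (c : Clause3) : Clause3 :=
  ((ρ c.1.1, c.1.2), (ρ c.2.1.1, c.2.1.2), (ρ c.2.2.1, c.2.2.2))

/-- variables replaced by their position in the list of variables -/
def dense (ψ : List Clause3) : List Clause3 := ψ.map (renClause fun n => (vars ψ).idxOf n)

theorem mem_vars {ψ : List Clause3} {c : Clause3} (hc : c ∈ ψ) :
    c.1.1 ∈ vars ψ ∧ c.2.1.1 ∈ vars ψ ∧ c.2.2.1 ∈ vars ψ := by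
  unfold vars
  simp only [List.mem_flatMap]
  exact ⟨⟨c, hc, by simp⟩, ⟨c, hc, by simp⟩, ⟨c, hc, by simp⟩⟩

theorem length_vars (ψ : List Clause3) : (vars ψ).length = 3 * ψ.length := by
  unfold vars
  induction ψ with
  | nil => rfl
  | cons c ψ ih =>
    rw [List.flatMap_cons, List.length_append, ih]
    simp only [List.length_cons, List.length_nil]
    omega

theorem length_dense (ψ : List Clause3) : (dense ψ).length = ψ.length := by
  simp [dense]

/-- in the densely renamed formula all variables are smaller than three times the number of clauses -/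
theorem dense_lt {ψ : List Clause3} {c : Clause3} (hc : c ∈ dense ψ) :
    c.1.1 < 3 * ψ.length ∧ c.2.1.1 < 3 * ψ.length ∧ c.2.2.1 < 3 * ψ.length := by
  unfold dense at hc
  rw [List.mem_map] at hc
  obtain ⟨d, hd, rfl⟩ := hc
  rw [← length_vars]
  obtain ⟨h1, h2, h3⟩ := mem_vars hd
  exact ⟨List.idxOf_lt_length_iff.2 h1, List.idxOf_lt_length_iff.2 h2,
    List.idxOf_lt_length_iff.2 h3⟩

theorem sat3_dense (ψ : List Clause3) : Sat3 (dense ψ) ↔ Sat3 ψ := by
  constructor
  · rintro ⟨v, hv⟩
    refine ⟨fun n => v ((vars ψ).idxOf n), fun c hc => ?_⟩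
    exact hv (renClause (fun n => (vars ψ).idxOf n) c) (List.mem_map_of_mem hc)
  · rintro ⟨v, hv⟩
    refine ⟨fun i => v ((vars ψ).getD i 0), fun c hc => ?_⟩
    unfold dense at hc
    rw [List.mem_map] at hc
    obtain ⟨d, hd, rfl⟩ := hc
    have key : ∀ n ∈ vars ψ, (vars ψ).getD ((vars ψ).idxOf n) 0 = n := by
      intro n hn
      rw [List.getD_eq_getElem?_getD, List.getElem?_idxOf hn]
      rfl
    obtain ⟨h1, h2, h3⟩ := mem_vars hd
    simp only [renClause]
    rw [key _ h1, key _ h2, key _ h3]
    exact hv d hd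

end ThreeSat

end Pool.Agent.H72.NP
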