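import Mathlib
import Pool.Agent.H72.NP.TabPoly
import Pool.Agent.H72.NP.ThreeSat

set_option autoImplicit false

/-!
# NP-hardness of satisfiability and of 3-satisfiability
-/

namespace Pool.Agent.H72.NP

open Pool.Agent.H80.Poly

namespace ThreeSat

variable {Γ : Type} [BEnc Γ]

theorem polyTime_split {φ : Γ → Cnf} (hφ : PolyTime φ) : PolyTime (fun a => split (φ a)) := by
  have hw : PolyTime (fun w : Γ × (List Lit × ℕ) => w) := PolyTime.id
  have hu : PolyTime (fun u : (Γ × (List Lit × ℕ)) × (Lit × ℕ) => u) := PolyTime.id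
  have hX : ∀ {Δ : Type} [BEnc Δ] {n : Δ → ℕ}, PolyTime n → PolyTime (fun a => X (n a)) :=
    fun hn => polyTime_natPair (PolyTime.const 0) hn
  have hY : ∀ {Δ : Type} [BEnc Δ] {m n : Δ → ℕ}, PolyTime m → PolyTime n →
      PolyTime (fun a => Y (m a) (n a)) :=
    fun hm hn => polyTime_natPair (PolyTime.const 1) (polyTime_natPair hm hn)
  have h3 : ∀ {Δ : Type} [BEnc Δ] {x y z : Δ → ℕ} {r s t : Δ → Bool}, PolyTime x → PolyTime y →
      PolyTime z → PolyTime r → PolyTime s → PolyTime t →
      PolyTime (fun a => (((x a, r a), (y a, s a), (z a, t a)) : Clause3)) :=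
    fun hx hy hz hr hs ht => (hx.pair hr).pair ((hy.pair hs).pair (hz.pair ht))
  refine hφ.zipIdx.flatMap (g := fun w : Γ × (List Lit × ℕ) => chain w.2.2 w.2.1) ?_
  unfold chain unit3
  refine PolyTime.cons ?_ (PolyTime.cons ?_ ?_)
  · exact h3 (hY hw.snd.snd (PolyTime.const 0)) (hY hw.snd.snd (PolyTime.const 0))
      (hY hw.snd.snd (PolyTime.const 0)) (PolyTime.const true) (PolyTime.const true)
      (PolyTime.const true)
  · exact h3 (hY hw.snd.snd (PolyTime.length hw.snd.fst))
      (hY hw.snd.snd (PolyTime.length hw.snd.fst)) (hY hw.snd.snd (PolyTime.length hw.snd.fst))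
      (PolyTime.const false) (PolyTime.const false) (PolyTime.const false)
  · exact hw.snd.fst.zipIdx.map (g := fun u : (Γ × (List Lit × ℕ)) × (Lit × ℕ) =>
      (((Y u.1.2.2 u.2.2, false), (X u.2.1.2, u.2.1.1), (Y u.1.2.2 (u.2.2 + 1), true)) : Clause3))
      (h3 (hY hu.fst.snd.snd hu.snd.snd) (hX hu.snd.fst.snd) (hY hu.fst.snd.snd hu.snd.snd.succ)
        (PolyTime.const false) hu.snd.fst.fst (PolyTime.const true))

theorem polyTime_vars {ψ : Γ → List Clause3} (hψ : PolyTime ψ) : PolyTime (fun a => vars (ψ a)) := by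
  have hw : PolyTime (fun w : Γ × Clause3 => w) := PolyTime.id
  exact hψ.flatMap (g := fun w : Γ × Clause3 => [w.2.1.1, w.2.2.1.1, w.2.2.2.1])
    (hw.snd.fst.fst.cons (hw.snd.snd.fst.fst.cons (polyTime_single hw.snd.snd.snd.fst)))

theorem polyTime_dense {ψ : Γ → List Clause3} (hψ : PolyTime ψ) :
    PolyTime (fun a => dense (ψ a)) := by
  have hw : PolyTime (fun w : Γ × Clause3 => w) := PolyTime.id
  have hv : PolyTime (fun w : Γ × Clause3 => vars (ψ w.1)) := polyTime_vars (hψ.comp hw.fst)
  exact hψ.map (g := fun w : Γ × Clause3 =>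
      (((vars (ψ w.1)).idxOf w.2.1.1, w.2.1.2), ((vars (ψ w.1)).idxOf w.2.2.1.1, w.2.2.1.2),
        ((vars (ψ w.1)).idxOf w.2.2.2.1, w.2.2.2.2)))
    (((hv.idxOf hw.snd.fst.fst).pair hw.snd.fst.snd).pair
      (((hv.idxOf hw.snd.snd.fst.fst).pair hw.snd.snd.fst.snd).pair
        ((hv.idxOf hw.snd.snd.snd.fst).pair hw.snd.snd.snd.snd)))

end ThreeSat

/-- The indices of the variables of a formula with three literals per clause are smaller than three
times the number of clauses. -/
def Dense (ψ : List Clause3) : Prop :=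
  ∀ c ∈ ψ, c.1.1 < 3 * ψ.length ∧ c.2.1.1 < 3 * ψ.length ∧ c.2.2.1 < 3 * ψ.length

/-- Every language in NP reduces to 3-satisfiability, with small indices of variables. -/
theorem exists_reduction_sat3 {L : List Bool → Prop} (h : InNP (id : List Bool → List Bool) L) :
    ∃ f : Str → List Clause3, PolyTime f ∧ (∀ x : List Bool, L x ↔ Sat3 (f x)) ∧
      ∀ x, Dense (f x) := by
  obtain ⟨f, hf, hL⟩ := exists_reduction_sat h
  refine ⟨fun x => ThreeSat.dense (ThreeSat.split (f x)),
    ThreeSat.polyTime_dense (ThreeSat.polyTime_split hf), fun x => ?_, fun x c hc => ?_⟩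
  · rw [ThreeSat.sat3_dense, ThreeSat.sat3_split]
    exact hL x
  · rw [ThreeSat.length_dense]
    exact ThreeSat.dense_lt hc

/-- from polynomial-time computability in the sense of the library to the one by Mathlib's machines -/
theorem polyTimeFun_of_polyTime {α β : Type} [BEnc α] [BEnc β] {f : α → β} (h : PolyTime f) :
    PolyTimeFun (BEnc.enc (α := α)) (BEnc.enc (α := β)) f := h.tm2

/-- Main tool: a polynomial-time reduction from 3-satisfiability (restricted to formulas with small
indices of variables) to `P` shows that `P` is NP-hard. -/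
theorem npHard_of_sat3 {α : Type} [BEnc α] {P : α → Prop} (g : List Clause3 → α) (hg : PolyTime g)
    (h : ∀ ψ, Dense ψ → (Sat3 ψ ↔ P (g ψ))) : NPHard (BEnc.enc (α := α)) P := by
  intro L hL
  obtain ⟨f, hf, hf1, hf2⟩ := exists_reduction_sat3 hL
  exact ⟨fun x => g (f x), (hg.comp hf).tm2, fun x => (hf1 x).trans (h _ (hf2 x))⟩

/-- The same for instances given by an arbitrary function from a type of codes: the instances of the
problem `P` are the elements of `α`, encoded by `e`, and `g` computes them. -/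
theorem npHard_of_sat3' {α A : Type} (e : α → List A) {P : α → Prop} (g : List Clause3 → α)
    (hg : ∀ f : Str → List Clause3, PolyTime f →
      PolyTimeFun (id : List Bool → List Bool) e (fun x => g (f x)))
    (h : ∀ ψ, Dense ψ → (Sat3 ψ ↔ P (g ψ))) : NPHard e P := by
  intro L hL
  obtain ⟨f, hf, hf1, hf2⟩ := exists_reduction_sat3 hL
  exact ⟨fun x => g (f x), hg f hf, fun x => (hf1 x).trans (h _ (hf2 x))⟩

/-- Satisfiability of formulas in conjunctive normal form is NP-hard. -/
theorem npHard_sat : NPHard (BEnc.enc (α := Cnf)) Cnf.Sat := by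
  intro L hL
  obtain ⟨f, hf, hf1⟩ := exists_reduction_sat hL
  exact ⟨f, hf.tm2, hf1⟩

/-- 3-satisfiability is NP-hard. -/
theorem npHard_sat3 : NPHard (BEnc.enc (α := List Clause3)) Sat3 :=
  npHard_of_sat3 (fun ψ => ψ) PolyTime.id (fun _ _ => Iff.rfl)

/-- A polynomial-time reduction transfers NP-hardness. -/
theorem NPHard.reduce {α β : Type} [BEnc α] [BEnc β] {P : α → Prop} {Q : β → Prop}
    (hP : ∃ (g : List Clause3 → α), PolyTime g ∧ ∀ ψ, Dense ψ → (Sat3 ψ ↔ P (g ψ)))
    (r : α → β) (hr : PolyTime r) (h : ∀ a, P a ↔ Q (r a)) : NPHard (BEnc.enc (α := β)) Q := by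
  obtain ⟨g, hg, hg'⟩ := hP
  exact npHard_of_sat3 (fun ψ => r (g ψ)) (hr.comp hg) (fun ψ hψ => (hg' ψ hψ).trans (h _))

/-! ### unary indices -/

/-- a clause with three literals whose variables are given in unary -/
abbrev UClause3 := (UNat × Bool) × (UNat × Bool) × (UNat × Bool)

/-- 3-satisfiability with the indices of the variables in unary -/
def USat3 (ψ : List UClause3) : Prop :=
  ∃ v : ℕ → Bool, ∀ c ∈ ψ, v c.1.1.toNat = c.1.2 ∨ v c.2.1.1.toNat = c.2.1.2 ∨
    v c.2.2.1.toNat = c.2.2.2

/-- the same clause with unary indices -/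
def toU (c : Clause3) : UClause3 :=
  ((UNat.ofNat c.1.1, c.1.2), (UNat.ofNat c.2.1.1, c.2.1.2), (UNat.ofNat c.2.2.1, c.2.2.2))

/-- the indices of variables are smaller than three times the number of clauses -/
def UDense (ψ : List UClause3) : Prop :=
  ∀ c ∈ ψ, c.1.1.toNat < 3 * ψ.length ∧ c.2.1.1.toNat < 3 * ψ.length ∧
    c.2.2.1.toNat < 3 * ψ.length

theorem uSat3_map (ψ : List Clause3) : USat3 (ψ.map toU) ↔ Sat3 ψ := by
  unfold USat3 Sat3
  simp only [List.mem_map, forall_exists_index, and_imp, forall_apply_eq_imp_iff₂]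
  rfl

/-- For a polynomial-time function into formulas with small indices, the indices can be written in
unary. -/
theorem polyTime_toU {Γ : Type} [BEnc Γ] {f : Γ → List Clause3} (hf : PolyTime f)
    (hd : ∀ a, Dense (f a)) : PolyTime (fun a => (f a).map toU) := by
  have hw : PolyTime (fun w : Γ × Clause3 => w) := PolyTime.id
  -- cut the indices at `3 * length`
  have hl : PU (fun w : Γ × Clause3 => 3 * (f w.1).length) :=
    (PU.const 3).mul (PU.comp (n := fun a => (f a).length) (PU.length hf) hw.fst)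
  have key : ∀ {n : Γ × Clause3 → ℕ}, PolyTime n →
      PolyTime (fun w => UNat.ofNat (min (n w) (3 * (f w.1).length))) := by
    intro n hn
    have hm : PU (fun w : Γ × Clause3 => min (n w) (3 * (f w.1).length)) :=
      PU.of_le (hn.min hl.1) hl (fun _ => min_le_right _ _)
    exact PolyTime.natToUnat hm.1 hm.2
  have h := hf.map (g := fun w : Γ × Clause3 =>
    (((UNat.ofNat (min w.2.1.1 (3 * (f w.1).length)), w.2.1.2),
      (UNat.ofNat (min w.2.2.1.1 (3 * (f w.1).length)), w.2.2.1.2),
      (UNat.ofNat (min w.2.2.2.1 (3 * (f w.1).length)), w.2.2.2.2)) : UClause3))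
    (((key hw.snd.fst.fst).pair hw.snd.fst.snd).pair
      (((key hw.snd.snd.fst.fst).pair hw.snd.snd.fst.snd).pair
        ((key hw.snd.snd.snd.fst).pair hw.snd.snd.snd.snd)))
  refine h.congr (fun a => ?_)
  apply List.map_congr_left
  intro c hc
  obtain ⟨h1, h2, h3⟩ := hd a c hc
  simp only [toU]
  rw [min_eq_left h1.le, min_eq_left h2.le, min_eq_left h3.le]

/-- Reduction from 3-satisfiability with unary indices. -/
theorem npHard_of_uSat3 {α : Type} [BEnc α] {P : α → Prop} (g : List UClause3 → α)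
    (hg : PolyTime g) (h : ∀ ψ, UDense ψ → (USat3 ψ ↔ P (g ψ))) :
    NPHard (BEnc.enc (α := α)) P := by
  intro L hL
  obtain ⟨f, hf, hf1, hf2⟩ := exists_reduction_sat3 hL
  refine ⟨fun x => g ((f x).map toU), (hg.comp (polyTime_toU hf hf2)).tm2, fun x => ?_⟩
  rw [hf1 x, ← uSat3_map]
  apply h
  intro c hc
  rw [List.mem_map] at hc
  obtain ⟨d, hd, rfl⟩ := hc
  rw [List.length_map]
  exact hf2 x d hd

end Pool.Agent.H72.NP
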