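import Mathlib
import Pool.Agent.H72.NP.Hard3Sat

set_option autoImplicit false

/-!
# NP-hardness of CLIQUE

Graphs are given by the number `n` of vertices and the list of edges `(u, v)` with `u < v < n`.
-/

namespace Pool.Agent.H72.NP

open Pool.Agent.H80.Poly

/-- a list of edges of a graph on `{0, …, n - 1}`, each written once, smaller end first -/
def IsEdgeList (n : ℕ) (E : List (ℕ × ℕ)) : Prop :=
  E.Nodup ∧ ∀ e ∈ E, e.1 < e.2 ∧ e.2 < n

/-- the graph on `{0, …, n - 1}` with list of edges `E` has a clique with `k` vertices -/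
def HasClique (n : ℕ) (E : List (ℕ × ℕ)) (k : ℕ) : Prop :=
  ∃ s : Finset ℕ, s.card = k ∧ (∀ u ∈ s, u < n) ∧ ∀ u ∈ s, ∀ v ∈ s, u < v → (u, v) ∈ E

namespace Clq

/-- a tautological clause -/
def taut : Clause3 := ((0, true), (0, false), (0, true))

/-- the list of occurrences of literals -/
def lits (ψ : List Clause3) : List (ℕ × Bool) := ψ.flatMap fun c => [c.1, c.2.1, c.2.2]

/-- literals that can be true together -/
def compat (a b : ℕ × Bool) : Bool := !(decide (a.1 = b.1)) || (a.2 == b.2)

theorem compat_iff {a b : ℕ × Bool} : compat a b = true ↔ (a.1 = b.1 → a.2 = b.2) := by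
  unfold compat
  rw [Bool.or_eq_true, Bool.not_eq_true', decide_eq_false_iff_not, beq_iff_eq]
  tauto

/-- adjacency of two occurrences -/
def adj (l : List (ℕ × Bool)) (u v : ℕ) : Bool :=
  !(decide (u / 3 = v / 3)) && compat (l.getD u (0, true)) (l.getD v (0, true))

theorem adj_iff {l : List (ℕ × Bool)} {u v : ℕ} : adj l u v = true ↔ u / 3 ≠ v / 3 ∧
    ((l.getD u (0, true)).1 = (l.getD v (0, true)).1 →
      (l.getD u (0, true)).2 = (l.getD v (0, true)).2) := by
  unfold adj
  rw [Bool.and_eq_true, Bool.not_eq_true', decide_eq_false_iff_not, compat_iff]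

theorem adj_symm {l : List (ℕ × Bool)} {u v : ℕ} (h : adj l u v = true) : adj l v u = true := by
  rw [adj_iff] at h ⊢
  exact ⟨fun e => h.1 e.symm, fun e => (h.2 e.symm).symm⟩

/-- the list of edges -/
def edges (l : List (ℕ × Bool)) : List (ℕ × ℕ) :=
  (List.range l.length).flatMap fun v =>
    ((List.range v).filter fun u => adj l u v).map fun u => (u, v)

theorem mem_edges {l : List (ℕ × Bool)} {u v : ℕ} :
    (u, v) ∈ edges l ↔ v < l.length ∧ u < v ∧ adj l u v = true := by
  unfold edges
  simp only [List.mem_flatMap, List.mem_range, List.mem_map, List.mem_filter, Prod.mk.injEq]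
  constructor
  · rintro ⟨v', hv, u', ⟨hu, ha⟩, rfl, rfl⟩
    exact ⟨hv, hu, ha⟩
  · rintro ⟨h1, h2, h3⟩
    exact ⟨v, h1, u, ⟨h2, h3⟩, rfl, rfl⟩

theorem nodup_edges (l : List (ℕ × Bool)) : (edges l).Nodup := by
  unfold edges
  rw [List.nodup_flatMap]
  constructor
  · intro v _
    exact (List.nodup_range.filter _).map (fun a b h => (Prod.mk.injEq _ _ _ _ ▸ h).1)
  · refine List.nodup_range.imp ?_
    intro v w hvw
    simp only [Function.onFun]
    intro e h1 h2
    rw [List.mem_map] at h1 h2
    obtain ⟨a, -, rfl⟩ := h1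
    obtain ⟨b, -, h⟩ := h2
    exact hvw (Prod.mk.injEq _ _ _ _ ▸ h).2.symm

theorem isEdgeList_edges (l : List (ℕ × Bool)) : IsEdgeList l.length (edges l) :=
  ⟨nodup_edges l, fun ⟨_, _⟩ he => ⟨(mem_edges.1 he).2.1, (mem_edges.1 he).1⟩⟩

theorem length_lits (ψ : List Clause3) : (lits ψ).length = 3 * ψ.length := by
  unfold lits
  induction ψ with
  | nil => rfl
  | cons c ψ ih =>
    rw [List.flatMap_cons, List.length_append, ih]
    simp only [List.length_cons, List.length_nil]
    omega

theorem getD_lits {ψ : List Clause3} {j : ℕ} (hj : j < ψ.length) :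
    (lits ψ).getD (3 * j) (0, true) = (ψ[j]).1 ∧
    (lits ψ).getD (3 * j + 1) (0, true) = (ψ[j]).2.1 ∧
    (lits ψ).getD (3 * j + 2) (0, true) = (ψ[j]).2.2 := by
  induction ψ generalizing j with
  | nil => simp at hj
  | cons c ψ ih =>
    have e : lits (c :: ψ) = c.1 :: c.2.1 :: c.2.2 :: lits ψ := by
      unfold lits
      rw [List.flatMap_cons]
      rfl
    cases j with
    | zero => rw [e]; simp
    | succ j =>
      have hj' : j < ψ.length := by simpa using hj
      have h := ih hj'
      rw [e]
      have e1 : 3 * (j + 1) = 3 * j + 1 + 1 + 1 := by ring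
      have e2 : 3 * (j + 1) + 1 = 3 * j + 1 + 1 + 1 + 1 := by ring
      have e3 : 3 * (j + 1) + 2 = 3 * j + 2 + 1 + 1 + 1 := by ring
      rw [e2, e3, e1]
      simp only [List.getD_cons_succ, List.getElem_cons_succ]
      exact h

/-- satisfiability gives a clique -/
theorem clique_of_sat {ψ : List Clause3} (h : Sat3 ψ) :
    HasClique (lits ψ).length (edges (lits ψ)) ψ.length := by
  obtain ⟨v, hv⟩ := h
  have key : ∀ j : Fin ψ.length, ∃ p : ℕ, p < 3 ∧
      v ((lits ψ).getD (3 * j + p) (0, true)).1 = ((lits ψ).getD (3 * j + p) (0, true)).2 := by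
    intro j
    obtain ⟨h1, h2, h3⟩ := getD_lits j.isLt
    rcases hv _ (List.getElem_mem j.isLt) with h | h | h
    · exact ⟨0, by omega, by rw [add_zero, h1]; exact h⟩
    · exact ⟨1, by omega, by rw [h2]; exact h⟩
    · exact ⟨2, by omega, by rw [h3]; exact h⟩
  choose p hp3 hp using key
  refine ⟨(Finset.univ : Finset (Fin ψ.length)).image fun (j : Fin ψ.length) => 3 * (j : ℕ) + p j, ?_, ?_, ?_⟩
  · rw [Finset.card_image_of_injective, Finset.card_univ, Fintype.card_fin]
    intro i j hij
    simp only at hij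
    have h1 := hp3 i
    have h2 := hp3 j
    apply Fin.ext
    omega
  · intro u hu
    rw [Finset.mem_image] at hu
    obtain ⟨j, -, rfl⟩ := hu
    have h1 := hp3 j
    have h2 := j.isLt
    rw [length_lits]
    omega
  · intro u hu w hw huw
    rw [Finset.mem_image] at hu hw
    obtain ⟨i, -, rfl⟩ := hu
    obtain ⟨j, -, rfl⟩ := hw
    have h1 := hp3 i
    have h2 := hp3 j
    have h4 := j.isLt
    rw [mem_edges, adj_iff]
    refine ⟨by rw [length_lits]; omega, huw, ?_, ?_⟩
    · intro h
      have h5 : (3 * (i : ℕ) + p i) / 3 = i := by omega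
      have h6 : (3 * (j : ℕ) + p j) / 3 = j := by omega
      have h7 : i = j := Fin.ext (by omega)
      subst h7
      omega
    · intro h
      rw [← hp i, ← hp j, h]

/-- a clique gives a satisfying assignment -/
theorem sat_of_clique {ψ : List Clause3}
    (h : HasClique (lits ψ).length (edges (lits ψ)) ψ.length) : Sat3 ψ := by
  classical
  obtain ⟨s, hcard, hlt, hadj⟩ := h
  have hadj' : ∀ u ∈ s, ∀ w ∈ s, u ≠ w → adj (lits ψ) u w = true := by
    intro u hu w hw huw
    rcases lt_or_gt_of_ne huw with h | h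
    · exact (mem_edges.1 (hadj u hu w hw h)).2.2
    · exact adj_symm (mem_edges.1 (hadj w hw u hu h)).2.2
  have hinj : Set.InjOn (fun u => u / 3) (s : Set ℕ) := by
    intro u hu w hw huw
    by_contra hne
    exact (adj_iff.1 (hadj' u hu w hw hne)).1 huw
  have himg : s.image (fun u => u / 3) = Finset.range ψ.length := by
    apply Finset.eq_of_subset_of_card_le
    · intro j hj
      rw [Finset.mem_image] at hj
      obtain ⟨u, hu, rfl⟩ := hj
      have := hlt u hu
      rw [length_lits] at this
      rw [Finset.mem_range]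
      omega
    · rw [Finset.card_image_of_injOn hinj, hcard, Finset.card_range]
  refine ⟨fun x => decide (∃ u ∈ s, (lits ψ).getD u (0, true) = (x, true)), ?_⟩
  intro c hc
  obtain ⟨j, hj, rfl⟩ := List.getElem_of_mem hc
  have hj' : j ∈ s.image (fun u => u / 3) := by rw [himg]; exact Finset.mem_range.2 hj
  rw [Finset.mem_image] at hj'
  obtain ⟨u, hu, huj⟩ := hj'
  have key : decide (∃ w ∈ s, (lits ψ).getD w (0, true) =
      (((lits ψ).getD u (0, true)).1, true)) = ((lits ψ).getD u (0, true)).2 := by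
    cases hb : ((lits ψ).getD u (0, true)).2 with
    | true =>
      rw [decide_eq_true_iff]
      exact ⟨u, hu, Prod.ext rfl hb⟩
    | false =>
      rw [decide_eq_false_iff_not]
      rintro ⟨w, hw, hwe⟩
      have hne : u ≠ w := by
        rintro rfl
        rw [hwe] at hb
        simp at hb
      have h1 := (adj_iff.1 (hadj' u hu w hw hne)).2
      rw [hwe, hb] at h1
      simp at h1
  obtain ⟨h1, h2, h3⟩ := getD_lits hj
  have hcases : u = 3 * j ∨ u = 3 * j + 1 ∨ u = 3 * j + 2 := by omega
  rcases hcases with rfl | rfl | rfl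
  · left
    rw [h1] at key
    exact key
  · right; left
    rw [h2] at key
    exact key
  · right; right
    rw [h3] at key
    exact key

theorem sat3_taut (ψ : List Clause3) : Sat3 (taut :: taut :: ψ) ↔ Sat3 ψ := by
  constructor
  · rintro ⟨v, hv⟩
    exact ⟨v, fun c hc => hv c (List.mem_cons_of_mem _ (List.mem_cons_of_mem _ hc))⟩
  · rintro ⟨v, hv⟩
    refine ⟨v, fun c hc => ?_⟩
    rw [List.mem_cons, List.mem_cons] at hc
    rcases hc with rfl | rfl | hc
    · simp only [taut]; cases v 0 <;> simp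
    · simp only [taut]; cases v 0 <;> simp
    · exact hv c hc

end Clq

/-- instances of CLIQUE: the number of vertices in unary, the list of edges, the number `k` in unary -/
abbrev CliqueInst := UNat × List (ℕ × ℕ) × UNat

/-- the instance of CLIQUE of a formula with three literals per clause -/
def toClique (ψ : List Clause3) : CliqueInst :=
  (UNat.ofNat (Clq.lits (Clq.taut :: Clq.taut :: ψ)).length,
    Clq.edges (Clq.lits (Clq.taut :: Clq.taut :: ψ)), UNat.ofNat (ψ.length + 2))

/-- well-formed instances of CLIQUE -/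
def CliqueInst.WF (I : CliqueInst) : Prop :=
  IsEdgeList I.1.toNat I.2.1 ∧ 2 ≤ I.2.2.toNat ∧ I.2.2.toNat ≤ I.1.toNat

/-- the yes-instances of CLIQUE -/
def Clique (I : CliqueInst) : Prop := I.WF ∧ HasClique I.1.toNat I.2.1 I.2.2.toNat

theorem toClique_wf (ψ : List Clause3) : (toClique ψ).WF := by
  refine ⟨Clq.isEdgeList_edges _, ?_, ?_⟩
  · show 2 ≤ ψ.length + 2
    omega
  · show ψ.length + 2 ≤ (Clq.lits (Clq.taut :: Clq.taut :: ψ)).length
    rw [Clq.length_lits]
    simp only [List.length_cons]
    omega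

theorem toClique_iff (ψ : List Clause3) :
    Sat3 ψ ↔ HasClique (toClique ψ).1.toNat (toClique ψ).2.1 (toClique ψ).2.2.toNat := by
  rw [← Clq.sat3_taut]
  exact ⟨Clq.clique_of_sat, Clq.sat_of_clique⟩

section poly

variable {Γ : Type} [BEnc Γ]

theorem polyTime_lits {ψ : Γ → List Clause3} (hψ : PolyTime ψ) :
    PolyTime (fun a => Clq.lits (ψ a)) := by
  have hw : PolyTime (fun w : Γ × Clause3 => w) := PolyTime.id
  exact hψ.flatMap (g := fun w : Γ × Clause3 => [w.2.1, w.2.2.1, w.2.2.2])
    (hw.snd.fst.cons (hw.snd.snd.fst.cons (polyTime_single hw.snd.snd.snd)))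

theorem polyTime_compat {a b : Γ → ℕ × Bool} (ha : PolyTime a) (hb : PolyTime b) :
    PolyTime (fun x => Clq.compat (a x) (b x)) :=
  (PolyTime.not (ha.fst.eq hb.fst)).or (PolyTime.beqBool ha.snd hb.snd)

theorem polyTime_adj {l : Γ → List (ℕ × Bool)} {u v : Γ → ℕ} (hl : PolyTime l) (hu : PolyTime u)
    (hv : PolyTime v) : PolyTime (fun a => Clq.adj (l a) (u a) (v a)) :=
  (PolyTime.not ((hu.div (PolyTime.const 3)).eq (hv.div (PolyTime.const 3)))).and
    (polyTime_compat (hl.list_getD hu (PolyTime.const (0, true)))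
      (hl.list_getD hv (PolyTime.const (0, true))))

theorem polyTime_edges {l : Γ → List (ℕ × Bool)} (hl : PolyTime l) :
    PolyTime (fun a => Clq.edges (l a)) := by
  have hw : PolyTime (fun w : Γ × ℕ => w) := PolyTime.id
  have hu : PolyTime (fun w : (Γ × ℕ) × ℕ => w) := PolyTime.id
  have hlen : PU (fun a => (l a).length) := PU.length hl
  -- ranges over `v < length`, cut at the length to have a bound
  have h1 : PU (fun w : Γ × ℕ => min w.2 (l w.1).length) :=
    PU.of_le (hw.snd.min (hlen.1.comp hw.fst)) (PU.comp hlen hw.fst) (fun _ => min_le_right _ _)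
  have h2 := h1.range.filter (g := fun w : (Γ × ℕ) × ℕ => Clq.adj (l w.1.1) w.2 w.1.2)
    (polyTime_adj (hl.comp hu.fst.fst) hu.snd hu.fst.snd)
  have h3 := h2.map (g := fun w : (Γ × ℕ) × ℕ => (w.2, w.1.2)) (hu.snd.pair hu.fst.snd)
  have h4 := hlen.range.flatMap (g := fun w : Γ × ℕ =>
    ((List.range (min w.2 (l w.1).length)).filter fun u => Clq.adj (l w.1) u w.2).map
      fun u => (u, w.2)) h3
  refine h4.congr (fun a => ?_)
  unfold Clq.edges
  apply List.flatMap_congr
  intro v hv
  rw [List.mem_range] at hv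
  simp only
  rw [min_eq_left hv.le]

theorem polyTime_toClique : PolyTime toClique := by
  have hψ : PolyTime (fun ψ : List Clause3 => ψ) := PolyTime.id
  have h0 : PolyTime (fun ψ : List Clause3 => Clq.lits (Clq.taut :: Clq.taut :: ψ)) :=
    polyTime_lits ((PolyTime.const Clq.taut).cons ((PolyTime.const Clq.taut).cons hψ))
  refine (PolyTime.lengthU h0).pair ((polyTime_edges h0).pair ?_)
  exact (PolyTime.lengthU ((PolyTime.const Clq.taut).cons ((PolyTime.const Clq.taut).cons hψ))).congr
    (fun ψ => by simp only [List.length_cons])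

end poly

/-- Main tool: a polynomial-time reduction from CLIQUE, which has to be correct on well-formed
instances only, shows that `P` is NP-hard. -/
theorem npHard_of_clique {α : Type} [BEnc α] {P : α → Prop} (g : CliqueInst → α) (hg : PolyTime g)
    (h : ∀ I : CliqueInst, I.WF → (HasClique I.1.toNat I.2.1 I.2.2.toNat ↔ P (g I))) :
    NPHard (BEnc.enc (α := α)) P :=
  npHard_of_sat3 (fun ψ => g (toClique ψ)) (hg.comp polyTime_toClique)
    (fun ψ _ => (toClique_iff ψ).trans (h _ (toClique_wf ψ)))

/-- CLIQUE is NP-hard. -/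
theorem npHard_clique : NPHard (BEnc.enc (α := CliqueInst)) Clique :=
  npHard_of_clique (fun I => I) PolyTime.id (fun _ h => ⟨fun h' => ⟨h, h'⟩, fun h' => h'.2⟩)

end Pool.Agent.H72.NP
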